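import Pool.Agent.V7H46.PLF.S4
import Pool.Agent.H181R5.PB_T9

/-!
# From the model to all palindromes with an odd number of digits
-/

set_option autoImplicit false

namespace Pool.Agent.V7H46.PLF

open Finset Filter Topology
open Pool.Agent.H181R5.PBT9 (palin pvl palin_eq pvl_inj)
open Pool.Agent.W139.PX (MajP majP_alt majP_unif HU HU_facts)

/-- the number of palindromes with `2 L + 1` digits -/
lemma card_palin {b : ℕ} (hb : 2 ≤ b) (L : ℕ) (hL : 1 ≤ L) : (palin b L).card = (b - 1) * b ^ L := by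
  rw [palin_eq hb L hL, card_image_of_injOn, card_product, Nat.card_Icc, card_univ]
  · simp
  · intro x hx y hy h
    rw [mem_coe, mem_product, mem_Icc] at hx hy
    exact pvl_inj hb L hL (show x ∈ {x : ℕ × (Fin L → Fin b) | x.1 < b} by
      show x.1 < b
      omega) (show y ∈ {x : ℕ × (Fin L → Fin b) | x.1 < b} by
      show y.1 < b
      omega) h

/-- fixing the first and the middle digit -/
lemma pvl_eq_pS {b l L : ℕ} (m : Fin (L + 1) → Fin b) :
    pvl b l (L + 1) m = pS b b 1 L (l * (b ^ (2 * L + 2) + 1) + (m 0 : ℕ) * b ^ (L + 1))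
      (fun c => (m c.succ, 0)) := by
  unfold pvl pS
  rw [Fin.sum_univ_succ]
  have h1 : Pool.Agent.H39R3.PB.fr b (L + 1) ((0 : Fin (L + 1)) : ℕ) = b ^ (L + 1) := by
    unfold Pool.Agent.H39R3.PB.fr
    simp
  rw [h1, show 2 * (L + 1) = 2 * L + 2 by ring, add_assoc]
  congr 2
  refine sum_congr rfl fun c _ => ?_
  rw [Pool.Agent.W89.PW.fr_eq]
  simp

/-- counting palindromes by their first and middle digits -/
lemma count_le {b L : ℕ} (hb : 2 ≤ b) (T : ℕ → Prop) {Z : ℝ}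
    (h : ∀ S, b ^ (2 * L + 2) ≤ S → ∀ (s : Finset (Fin L → Fin b × Fin 1)),
      (∀ m ∈ s, T (pS b b 1 L S m)) → (s.card : ℝ) ≤ Z)
    (s : Finset ℕ) (hs : ∀ n ∈ s, n ∈ palin b (L + 1) ∧ T n) :
    (s.card : ℝ) ≤ ((b : ℝ) - 1) * b * Z := by
  classical
  set I := (Icc 1 (b - 1)) ×ˢ (univ : Finset (Fin b)) with hI
  set Sh : ℕ × Fin b → ℕ := fun x => x.1 * (b ^ (2 * L + 2) + 1) + (x.2 : ℕ) * b ^ (L + 1) with hSh
  have hsub : s ⊆ I.biUnion fun x => ((univ : Finset (Fin L → Fin b × Fin 1)).filter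
      (fun m => T (pS b b 1 L (Sh x) m))).image (fun m => pS b b 1 L (Sh x) m) := by
    intro n hn
    obtain ⟨h1, h2⟩ := hs n hn
    rw [palin_eq hb (L + 1) (by omega), mem_image] at h1
    obtain ⟨⟨l, m⟩, hx, hxn⟩ := h1
    rw [mem_product] at hx
    simp only at hxn hx
    rw [mem_biUnion]
    refine ⟨(l, m 0), ?_, ?_⟩
    · rw [hI, mem_product]
      exact ⟨hx.1, mem_univ _⟩
    · rw [mem_image]
      have h3 := pvl_eq_pS (l := l) m
      rw [hxn] at h3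
      refine ⟨fun c => (m c.succ, 0), ?_, h3.symm⟩
      rw [mem_filter]
      refine ⟨mem_univ _, ?_⟩
      rw [← h3]
      exact h2
  have hcard : I.card = (b - 1) * b := by
    rw [hI, card_product, Nat.card_Icc, card_univ, Fintype.card_fin]
    simp
  have h1 : (s.card : ℝ) ≤ ∑ x ∈ I, (((univ : Finset (Fin L → Fin b × Fin 1)).filter
      (fun m => T (pS b b 1 L (Sh x) m))).card : ℝ) := by
    have h2 : s.card ≤ ∑ x ∈ I, ((univ : Finset (Fin L → Fin b × Fin 1)).filter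
      (fun m => T (pS b b 1 L (Sh x) m))).card :=
      (card_le_card hsub).trans (card_biUnion_le.trans (sum_le_sum fun x _ => card_image_le))
    exact_mod_cast h2
  calc (s.card : ℝ) ≤ ∑ x ∈ I, (((univ : Finset (Fin L → Fin b × Fin 1)).filter
      (fun m => T (pS b b 1 L (Sh x) m))).card : ℝ) := h1
    _ ≤ ∑ x ∈ I, Z := by
        refine sum_le_sum fun x hx => ?_
        rw [hI, mem_product, mem_Icc] at hx
        refine h (Sh x) ?_ _ fun m hm => (mem_filter.1 hm).2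
        have h3 : 1 * (b ^ (2 * L + 2) + 1) ≤ x.1 * (b ^ (2 * L + 2) + 1) := Nat.mul_le_mul_right _ hx.1.1
        simp only [hSh]
        omega
    _ = ((b : ℝ) - 1) * b * Z := by
        rw [sum_const, nsmul_eq_mul, hcard, Nat.cast_mul, Nat.cast_sub (by omega), Nat.cast_one]

/-- the bound for the proportion of the palindromes without prime factor above `n ^ θ`, for a parameter `k` -/
noncomputable def bd (k : ℕ) (θ : ℝ) : ℝ := ∏ i ∈ range k, θ / (1 - i * θ)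

/-- a slightly larger admissible exponent -/
lemma exists_larger {b : ℕ} (hb : 2 ≤ b) {H θ : ℝ} {k : ℕ} (hk : 1 ≤ k) (hθ0 : 0 < θ) (hHb : 1 ≤ b * H)
    (hH0 : 0 < H) (h : (b : ℝ) ^ (2 * k * θ) * H < 1) {ε : ℝ} (hε : 0 < ε) :
    ∃ x : ℝ, θ < x ∧ bd k x ≤ bd k θ + ε ∧ (b : ℝ) ^ (2 * k * x) * H < 1 := by
  have hb1 : (1 : ℝ) < b := by exact_mod_cast (by omega : 1 < b)
  have hb0 : (0 : ℝ) < b := by linarith
  have hkθ : 2 * k * θ < 1 := by
    by_contra hcon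
    push Not at hcon
    have h3 : (b : ℝ) ≤ (b : ℝ) ^ (2 * k * θ) := by
      calc (b : ℝ) = (b : ℝ) ^ (1 : ℝ) := (Real.rpow_one _).symm
        _ ≤ _ := Real.rpow_le_rpow_of_exponent_le hb1.le hcon
    have h4 : (b : ℝ) * H ≤ (b : ℝ) ^ (2 * k * θ) * H := mul_le_mul_of_nonneg_right h3 hH0.le
    linarith
  have h1 : Tendsto (fun x : ℝ => bd k x) (𝓝 θ) (𝓝 (bd k θ)) := by
    unfold bd
    apply tendsto_finsetProd
    intro i hi
    rw [mem_range] at hi
    have h2 : (i : ℝ) ≤ k := by exact_mod_cast hi.le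
    have h3 := mul_le_mul_of_nonneg_right h2 hθ0.le
    apply Tendsto.div tendsto_id
    · exact tendsto_const_nhds.sub (tendsto_const_nhds.mul tendsto_id)
    · have : 0 < 1 - (i : ℝ) * θ := by linarith
      exact this.ne'
  have h2 : Tendsto (fun x : ℝ => (b : ℝ) ^ (2 * k * x) * H) (𝓝 θ) (𝓝 ((b : ℝ) ^ (2 * k * θ) * H)) := by
    apply Tendsto.mul_const
    apply Tendsto.rpow tendsto_const_nhds _ (Or.inl hb0.ne')
    exact tendsto_const_nhds.mul tendsto_id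
  have h3 : ∀ᶠ x in 𝓝[>] θ, bd k x < bd k θ + ε ∧ (b : ℝ) ^ (2 * k * x) * H < 1 :=
    ((h1.eventually (gt_mem_nhds (by linarith))).and (h2.eventually (gt_mem_nhds h))).filter_mono
      nhdsWithin_le_nhds
  obtain ⟨x, ⟨hx1, hx2⟩, hx3⟩ := (h3.and self_mem_nhdsWithin).exists
  exact ⟨x, hx3, hx1.le, hx2⟩

open Classical in
/-- the number of palindromes without prime factor above `n ^ θ` -/
theorem smooth_le {b : ℕ} (hb : 2 ≤ b) {H CM : ℝ} (hMaj : MajP b b 1 H CM) (hH0 : 0 < H)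
    (hHb : 1 ≤ b * H) (hCM : 0 < CM) {θ : ℝ} (hθ0 : 0 < θ) {k : ℕ} (hk : 1 ≤ k)
    (hθH : (b : ℝ) ^ (2 * k * θ) * H < 1)
    {ε : ℝ} (hε : 0 < ε) : ∀ᶠ N : ℕ in atTop,
    (((palin b N).filter (fun n => ∀ p : ℕ, p.Prime → p ∣ n → (p : ℝ) ≤ (n : ℝ) ^ θ)).card : ℝ) ≤
      (bd k θ + ε) * (palin b N).card := by
  have hbR : (2 : ℝ) ≤ b := by exact_mod_cast hb
  have hb0 : (0 : ℝ) < b := by linarith
  obtain ⟨x, h1, h2, h3⟩ := exists_larger hb hk hθ0 hHb hH0 hθH (ε := ε / 2) (by positivity)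
  have hx0 : 0 < x := by linarith
  have hev : ∀ᶠ L : ℕ in atTop, (3 * θ / (2 * (x - θ)) : ℝ) ≤ L :=
    (tendsto_natCast_atTop_atTop (R := ℝ)).eventually_ge_atTop _
  have hbd : ∏ i ∈ range k, 2 * x / 2 / (1 - i * (2 * x / 2)) = bd k x := by
    unfold bd
    refine prod_congr rfl fun i _ => ?_
    rw [show 2 * x / 2 = x by ring]
  have key : ∀ᶠ L : ℕ in atTop,
    (((palin b (L + 1)).filter (fun n => ∀ p : ℕ, p.Prime → p ∣ n → (p : ℝ) ≤ (n : ℝ) ^ θ)).card : ℝ) ≤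
      (bd k θ + ε) * (palin b (L + 1)).card := by
    filter_upwards [main hb hMaj hH0 hHb hCM (τ := 2 * x) (by positivity) k hk
      (by rwa [show (k : ℝ) * (2 * x) = 2 * k * x by ring]) (ε := ε / 2) (by positivity), hev] with L hL hL2
    rw [hbd] at hL
    have hle : (2 * (L : ℝ) + 3) * θ ≤ 2 * x * L := by
      rw [div_le_iff₀ (by linarith)] at hL2
      linarith
    have h4 := count_le (L := L) hb (fun n => ∀ p : ℕ, p.Prime → p ∣ n → (p : ℝ) ≤ (b : ℝ) ^ (2 * x * L))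
      (Z := (bd k x + ε / 2) * (b : ℝ) ^ L) (fun S hS s hs => by
        refine le_trans ?_ (hL S hS)
        have : s ⊆ (univ : Finset (Fin L → Fin b × Fin 1)).filter (fun m => ∀ p : ℕ, p.Prime →
            p ∣ pS b b 1 L S m → (p : ℝ) ≤ (b : ℝ) ^ (2 * x * L)) := by
          intro m hm
          rw [mem_filter]
          exact ⟨mem_univ _, hs m hm⟩
        exact_mod_cast card_le_card this)
      ((palin b (L + 1)).filter (fun n => ∀ p : ℕ, p.Prime → p ∣ n → (p : ℝ) ≤ (n : ℝ) ^ θ)) (by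
        intro n hn
        rw [mem_filter] at hn
        refine ⟨hn.1, fun p hp hpn => (hn.2 p hp hpn).trans ?_⟩
        have h5 : n < b ^ (2 * (L + 1) + 1) := by
          have := hn.1
          unfold palin at this
          rw [mem_filter, mem_range] at this
          exact this.1
        have h6 : (n : ℝ) ≤ (b : ℝ) ^ (2 * (L : ℝ) + 3) := by
          have h7 : (n : ℝ) ≤ (b : ℝ) ^ (2 * (L + 1) + 1) := by exact_mod_cast h5.le
          refine h7.trans (le_of_eq ?_)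
          rw [← Real.rpow_natCast]
          congr 1
          push_cast
          ring
        calc (n : ℝ) ^ θ ≤ ((b : ℝ) ^ (2 * (L : ℝ) + 3)) ^ θ :=
              Real.rpow_le_rpow (Nat.cast_nonneg _) h6 hθ0.le
          _ = (b : ℝ) ^ ((2 * (L : ℝ) + 3) * θ) := by rw [← Real.rpow_mul hb0.le]
          _ ≤ (b : ℝ) ^ (2 * x * L) := Real.rpow_le_rpow_of_exponent_le (by linarith) hle)
    refine h4.trans ?_
    rw [card_palin hb (L + 1) (by omega), Nat.cast_mul, Nat.cast_sub (by omega), Nat.cast_one, Nat.cast_pow]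
    calc ((b : ℝ) - 1) * b * ((bd k x + ε / 2) * (b : ℝ) ^ L) = (bd k x + ε / 2) * (((b : ℝ) - 1) * (b : ℝ) ^ (L + 1)) := by
          rw [pow_succ]
          ring
      _ ≤ (bd k θ + ε) * (((b : ℝ) - 1) * (b : ℝ) ^ (L + 1)) := by
          apply mul_le_mul_of_nonneg_right (by linarith)
          have : (0 : ℝ) ≤ (b : ℝ) - 1 := by linarith
          positivity
  rw [eventually_atTop] at key ⊢
  obtain ⟨L0, hL0⟩ := key
  refine ⟨L0 + 1, fun N hN => ?_⟩
  obtain ⟨L, rfl⟩ : ∃ L, N = L + 1 := ⟨N - 1, by omega⟩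
  exact hL0 L (by omega)

open Classical in
/-- the number of palindromes with a prime factor above `n ^ θ` -/
theorem large_ge {b : ℕ} (hb : 2 ≤ b) {H CM : ℝ} (hMaj : MajP b b 1 H CM) (hH0 : 0 < H)
    (hHb : 1 ≤ b * H) (hCM : 0 < CM) {θ : ℝ} (hθ0 : 0 < θ) {k : ℕ} (hk : 1 ≤ k)
    (hθH : (b : ℝ) ^ (2 * k * θ) * H < 1)
    {ε : ℝ} (hε : 0 < ε) : ∀ᶠ N : ℕ in atTop,
    (1 - bd k θ - ε) * (palin b N).card ≤
    (((palin b N).filter (fun n => ∃ p : ℕ, p.Prime ∧ p ∣ n ∧ (n : ℝ) ^ θ < (p : ℝ))).card : ℝ) := by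
  filter_upwards [smooth_le hb hMaj hH0 hHb hCM hθ0 hk hθH hε] with N hN
  have h1 : (((palin b N).filter (fun n => ∃ p : ℕ, p.Prime ∧ p ∣ n ∧ (n : ℝ) ^ θ < (p : ℝ))).card : ℝ) +
      (((palin b N).filter (fun n => ∀ p : ℕ, p.Prime → p ∣ n → (p : ℝ) ≤ (n : ℝ) ^ θ)).card : ℝ) =
      (palin b N).card := by
    have h2 := card_filter_add_card_filter_not (s := palin b N)
      (fun n => ∃ p : ℕ, p.Prime ∧ p ∣ n ∧ (n : ℝ) ^ θ < (p : ℝ))
    have h3 : (palin b N).filter (fun n => ¬ ∃ p : ℕ, p.Prime ∧ p ∣ n ∧ (n : ℝ) ^ θ < (p : ℝ)) =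
        (palin b N).filter (fun n => ∀ p : ℕ, p.Prime → p ∣ n → (p : ℝ) ≤ (n : ℝ) ^ θ) := by
      apply filter_congr
      intro n _
      push Not
      rfl
    rw [h3] at h2
    exact_mod_cast h2
  linarith

open Classical in
/-- every base `b ≥ 2`, `k θ < 1 / 4` -/
theorem large_quarter {b : ℕ} (hb : 2 ≤ b) {θ : ℝ} (hθ0 : 0 < θ) {k : ℕ} (hk : 1 ≤ k) (hθ : k * θ < 1 / 4)
    {ε : ℝ} (hε : 0 < ε) : ∀ᶠ N : ℕ in atTop,
    (1 - bd k θ - ε) * (palin b N).card ≤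
    (((palin b N).filter (fun n => ∃ p : ℕ, p.Prime ∧ p ∣ n ∧ (n : ℝ) ^ θ < (p : ℝ))).card : ℝ) := by
  have hbR : (2 : ℝ) ≤ b := by exact_mod_cast hb
  have hb0 : (0 : ℝ) < b := by linarith
  set H : ℝ := Real.sqrt (1 / b) with hH
  have hH0 : 0 < H := Real.sqrt_pos.2 (by positivity)
  have hH2 : H ^ 2 = 1 / b := Real.sq_sqrt (by positivity)
  have hb1 : 1 / (b : ℝ) ≤ 1 := by
    rw [div_le_one hb0]
    linarith
  have hH1 : H ≤ 1 := by
    by_contra hcon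
    push Not at hcon
    have h1 : 1 < H ^ 2 := one_lt_pow₀ hcon two_ne_zero
    linarith
  have hHb : 1 ≤ b * H := by
    have h1 : (b : ℝ) * H ^ 2 = 1 := by
      rw [hH2]
      field_simp
    have h2 : H ^ 2 ≤ H := by nlinarith
    have h3 : (b : ℝ) * H ^ 2 ≤ b * H := mul_le_mul_of_nonneg_left h2 hb0.le
    linarith
  have hMaj : MajP b b 1 H (1 / H ^ 3) := majP_alt hb (by omega) le_rfl le_rfl (by omega) hH0 hH1 (by
    rw [hH2, Nat.cast_one, mul_one])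
  have hκ : (b : ℝ) ^ (2 * k * θ) * H < 1 := by
    rw [hH, Real.sqrt_eq_rpow, one_div, Real.inv_rpow hb0.le]
    rw [← div_eq_mul_inv, div_lt_one (by positivity)]
    exact Real.rpow_lt_rpow_of_exponent_lt (by linarith) (by linarith)
  exact large_ge hb hMaj hH0 hHb (by positivity) hθ0 hk hκ hε

open Classical in
/-- `b ≥ 64` -/
theorem large_unif {b : ℕ} (hb : 64 ≤ b) {θ : ℝ} (hθ0 : 0 < θ) {k : ℕ} (hk : 1 ≤ k)
    (hθ : (b : ℝ) ^ (2 * k * θ) * (2 + 2 / Real.pi * Real.log b) < b)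
    {ε : ℝ} (hε : 0 < ε) : ∀ᶠ N : ℕ in atTop,
    (1 - bd k θ - ε) * (palin b N).card ≤
    (((palin b N).filter (fun n => ∃ p : ℕ, p.Prime ∧ p ∣ n ∧ (n : ℝ) ^ θ < (p : ℝ))).card : ℝ) := by
  obtain ⟨h1, h2, h3⟩ := HU_facts hb
  have hb0 : (0 : ℝ) < b := by exact_mod_cast (by omega : 0 < b)
  refine large_ge (by omega) (majP_unif hb) h1 h2 one_pos hθ0 hk ?_ hε
  unfold HU
  rw [← mul_div_assoc, div_lt_one hb0]
  exact hθ

/-- the condition holds for `κ < 1` and large `b` -/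
lemma cond_large {κ : ℝ} (hκ : κ < 1) : ∃ b0 : ℕ, ∀ b : ℕ, b0 ≤ b → 64 ≤ b ∧
    (b : ℝ) ^ κ * (2 + 2 / Real.pi * Real.log b) < b := by
  have hδ : 0 < 1 - κ := by linarith
  have h1 : Tendsto (fun x : ℝ => (2 + 2 / Real.pi * Real.log x) / x ^ (1 - κ)) atTop (𝓝 0) := by
    have h2 : Tendsto (fun x : ℝ => 2 / x ^ (1 - κ)) atTop (𝓝 0) :=
      (tendsto_rpow_atTop hδ).const_div_atTop 2
    have h3 : Tendsto (fun x : ℝ => Real.log x / x ^ (1 - κ)) atTop (𝓝 0) :=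
      (isLittleO_log_rpow_atTop hδ).tendsto_div_nhds_zero
    have h4 := h2.add (h3.const_mul (2 / Real.pi))
    simp only [mul_zero, add_zero] at h4
    refine h4.congr fun x => ?_
    ring
  have h5 := (h1.comp (tendsto_natCast_atTop_atTop (R := ℝ))).eventually (gt_mem_nhds one_pos)
  obtain ⟨b0, hb0⟩ := eventually_atTop.1 (h5.and (eventually_ge_atTop 64))
  refine ⟨b0, fun b hb => ?_⟩
  obtain ⟨h6, h7⟩ := hb0 b hb
  refine ⟨h7, ?_⟩
  have hb0' : (0 : ℝ) < b := by exact_mod_cast (by omega : 0 < b)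
  simp only [Function.comp_apply] at h6
  rw [div_lt_one (by positivity)] at h6
  have h8 : (b : ℝ) ^ κ * (b : ℝ) ^ (1 - κ) = b := by
    rw [← Real.rpow_add hb0']
    conv_rhs => rw [← Real.rpow_one (b : ℝ)]
    congr 1
    ring
  calc (b : ℝ) ^ κ * (2 + 2 / Real.pi * Real.log b)
      < (b : ℝ) ^ κ * (b : ℝ) ^ (1 - κ) := mul_lt_mul_of_pos_left h6 (by positivity)
    _ = b := h8

open Classical in
/-- for fixed `θ` with `k θ < 1 / 2` and all large bases -/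
theorem large_half {k : ℕ} (hk : 1 ≤ k) {θ : ℝ} (hθ0 : 0 < θ) (hθ : k * θ < 1 / 2) :
    ∃ b0 : ℕ, ∀ b : ℕ, b0 ≤ b → ∀ ε : ℝ, 0 < ε → ∀ᶠ N : ℕ in atTop,
    (1 - bd k θ - ε) * ((palin b N).card : ℝ) ≤
    (((palin b N).filter (fun n => ∃ p : ℕ, p.Prime ∧ p ∣ n ∧ (n : ℝ) ^ θ < (p : ℝ))).card : ℝ) := by
  obtain ⟨b0, hb0⟩ := cond_large (κ := 2 * k * θ) (by linarith)
  refine ⟨b0, fun b hb ε hε => ?_⟩
  obtain ⟨h4, h5⟩ := hb0 b hb
  exact large_unif h4 hθ0 hk h5 hε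

end Pool.Agent.V7H46.PLF
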