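import Pool.Agent.V7H46.PLF.S5
import Pool.Agent.W139.PX.E3

/-!
# A larger exponent for fewer palindromes: weighted digits
-/

set_option autoImplicit false

namespace Pool.Agent.V7H46.PLF

open Finset Filter Topology Pool.Agent.W89.PW
open Pool.Agent.H181R5.PBT9 (palin)
open Pool.Agent.W139.PX (energy_bound kap9 kap3)

open Classical in
/-- most of the weighted palindromes have a prime factor above `b ^ (κ L)` -/
theorem weighted {b s t : ℕ} (hb : 3 ≤ b) (hs : 2 ≤ s) (hst : s ≤ t) (hbst : s + t = b + 1) {κ : ℝ}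
    (hκ0 : 0 < κ) (hκ : (b : ℝ) ^ κ * HH s t < 1) (hm4 : (b : ℝ) * m4 s t < 1) {ε : ℝ} (hε : 0 < ε) :
    ∀ᶠ L : ℕ in atTop,
    (((univ : Finset (Fin L → Fin s × Fin t)).filter (fun m => ∀ p : ℕ, p.Prime →
      p ∣ pv b s t L m → (p : ℝ) ≤ (b : ℝ) ^ (κ * L))).card : ℝ) ≤ (κ / 2 + ε) * ((s : ℝ) * t) ^ L := by
  have hκ1 : κ < 1 := kappa_lt_one hb (by omega) (by omega) hbst hκ
  have hBig : BigW b s t κ := Pool.Agent.W822.PWBig.main Pool.Agent.W880.PW.mainG Pool.Agent.W342.PW2.mainLS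
    b s t hb (by omega) (by omega) hbst hm4 κ hκ0 hκ
  have hPt : PtW b s t := Pool.Agent.W571.PW.Pt.main b s t (by omega) hs (by omega) hbst
  have hBV : BVW b s t κ := Pool.Agent.W261.PWBV.main b s t hb (by omega) (by omega) hbst hPt κ hκ0 hκ1 hBig
  have hSq : SqW b s t κ := Pool.Agent.W809.PWSqr.main Pool.Agent.W880.PW.mainGsq
    Pool.Agent.W342.PW2.mainSq4 b s t hb (by omega) (by omega) hbst hm4 κ hκ0 hκ
  have hDig := fun L => Pool.Agent.W571.PW.Dig.main b s t L hb (by omega) hst hbst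
  have hX0 : ∀ L : ℕ, 0 ≤ ((s : ℝ) * t) ^ L := fun L => by positivity
  have hpv : ∀ (L : ℕ) (m : Fin L → Fin s × Fin t),
      pS b s t L (b ^ (2 * L + 2) + b ^ (L + 1) + 1) m = pv b s t L m := fun _ _ => rfl
  have hcS : ∀ L q : ℕ, cS b s t L (b ^ (2 * L + 2) + b ^ (L + 1) + 1) q = cnt b s t L q := fun _ _ => rfl
  have h := main_gen (b := b) (s := s) (t := t) (by omega) (by omega) (by omega) hκ0 1
    (by rw [Nat.cast_one, one_mul]; exact hκ1.le) hε
    (fun L S => S = b ^ (2 * L + 2) + b ^ (L + 1) + 1)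
    (fun L S hS => by
      subst hS
      have : 0 ≤ b ^ (L + 1) := Nat.zero_le _
      omega)
    (by
      filter_upwards [hBV 2] with L hL S hS
      subst hS
      simp only [hcS, Nat.cast_one, one_mul]
      refine le_trans (sum_le_sum fun q hq => ?_) hL
      rw [mem_filter, mem_Icc] at hq
      have h2 : (1 : ℝ) ≤ (q.divisors.card : ℝ) ^ 2 := by
        have h3 : 1 ≤ q.divisors.card := Finset.card_pos.2 ⟨1, Nat.one_mem_divisors.2 (by omega)⟩
        have h4 : (1 : ℝ) ≤ (q.divisors.card : ℝ) := by exact_mod_cast h3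
        exact one_le_pow₀ h4
      exact le_mul_of_one_le_left (abs_nonneg _) h2)
    (by
      filter_upwards [hSq (κ / 3) (by positivity) 1] with L hL S hS
      subst hS
      simp only [hpv]
      rw [pow_one] at hL
      exact hL) 1
    (by
      filter_upwards with L S hS
      subst hS
      have he : ((univ : Finset (Fin L → Fin s × Fin t)).filter
          (fun m => ∃ p ∈ (2 * b).primeFactors, p ^ 1 ∣ pS b s t L (b ^ (2 * L + 2) + b ^ (L + 1) + 1) m)) = ∅ := by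
        rw [filter_eq_empty_iff]
        rintro m _ ⟨p, hp, hd⟩
        rw [pow_one, hpv] at hd
        have h1 := ((hDig L).1 m).2.2.2
        have h2 := Nat.dvd_gcd hd (Nat.dvd_of_mem_primeFactors hp)
        rw [h1] at h2
        exact (Nat.prime_of_mem_primeFactors hp).one_lt.ne' (Nat.dvd_one.1 h2)
      rw [he]
      have := hX0 L
      simp only [card_empty, Nat.cast_zero]
      positivity)
  filter_upwards [h] with L hL
  have h1 := hL _ rfl
  rw [prod_range_one, Nat.cast_zero, zero_mul, sub_zero, div_one] at h1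
  exact h1

open Classical in
/-- at least `B ^ N` palindromes have a prime factor above `n ^ θ` -/
theorem weighted_large {b s t : ℕ} (hb : 3 ≤ b) (hs : 2 ≤ s) (hst : s ≤ t) (hbst : s + t = b + 1) {κ : ℝ}
    (hκ0 : 0 < κ) (hκ : (b : ℝ) ^ κ * HH s t < 1) (hm4 : (b : ℝ) * m4 s t < 1) {θ B : ℝ} (hθ0 : 0 < θ)
    (hθ : 2 * θ < κ) (hB : 1 ≤ B) (hBE : B < ((s : ℝ) * t) ^ 2 / (Eset s t).card) :
    ∀ᶠ N : ℕ in atTop, B ^ N ≤
      (((palin b N).filter (fun n => ∃ p : ℕ, p.Prime ∧ p ∣ n ∧ (n : ℝ) ^ θ < (p : ℝ))).card : ℝ) := by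
  have hκ1 : κ < 1 := kappa_lt_one hb (by omega) (by omega) hbst hκ
  have hbR : (3 : ℝ) ≤ b := by exact_mod_cast hb
  have hb0 : (0 : ℝ) < b := by linarith
  have hDig := fun L => Pool.Agent.W571.PW.Dig.main b s t L hb (by omega) hst hbst
  have hs0 : (0 : ℝ) < s := by exact_mod_cast (by omega : 0 < s)
  have ht0 : (0 : ℝ) < t := by exact_mod_cast (by omega : 0 < t)
  have hE : 0 < (Eset s t).card := by
    apply card_pos.2
    refine ⟨((⟨0, by omega⟩, ⟨0, by omega⟩), (⟨0, by omega⟩, ⟨0, by omega⟩)), ?_⟩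
    unfold Eset
    simp
  have hER : (0 : ℝ) < (Eset s t).card := by exact_mod_cast hE
  set A : ℝ := ((s : ℝ) * t) ^ 2 / (Eset s t).card with hA
  have hA0 : 0 < A := by linarith
  have hev : ∀ᶠ L : ℕ in atTop, (3 * θ / (κ - 2 * θ) : ℝ) ≤ L :=
    (tendsto_natCast_atTop_atTop (R := ℝ)).eventually_ge_atTop _
  have hev2 : ∀ᶠ L : ℕ in atTop, (B / A) ^ L < 1 / (16 * B) := by
    have h2 := tendsto_pow_atTop_nhds_zero_of_lt_one (r := B / A) (by positivity) (by
      rw [div_lt_one hA0]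
      exact hBE)
    exact h2.eventually (gt_mem_nhds (by positivity))
  have key : ∀ᶠ L : ℕ in atTop, B ^ (L + 1) ≤
      (((palin b (L + 1)).filter (fun n => ∃ p : ℕ, p.Prime ∧ p ∣ n ∧ (n : ℝ) ^ θ < (p : ℝ))).card : ℝ) := by
    filter_upwards [weighted hb hs hst hbst hκ0 hκ hm4 (ε := 1 / 4) (by norm_num), hev, hev2] with L hL hL2 hL3
    have hle : (2 * (L : ℝ) + 3) * θ ≤ κ * L := by
      rw [div_le_iff₀ (by linarith)] at hL2
      linarith
    set X : ℝ := ((s : ℝ) * t) ^ L with hX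
    have hX0 : 0 < X := by positivity
    set W := (univ : Finset (Fin L → Fin s × Fin t)).filter (fun m => ∀ p : ℕ, p.Prime →
      p ∣ pv b s t L m → (p : ℝ) ≤ (b : ℝ) ^ (κ * L)) with hW
    set G := (univ : Finset (Fin L → Fin s × Fin t)).filter (fun m => ¬ ∀ p : ℕ, p.Prime →
      p ∣ pv b s t L m → (p : ℝ) ≤ (b : ℝ) ^ (κ * L)) with hG
    have hGW : (W.card : ℝ) + G.card = X := by
      have h1 := card_filter_add_card_filter_not (s := (univ : Finset (Fin L → Fin s × Fin t)))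
        (fun m => ∀ p : ℕ, p.Prime → p ∣ pv b s t L m → (p : ℝ) ≤ (b : ℝ) ^ (κ * L))
      have h2 : ((univ : Finset (Fin L → Fin s × Fin t)).card : ℝ) = X := by
        rw [card_univ]
        simp [hX]
      rw [← h2]
      exact_mod_cast h1
    have hG4 : X / 4 ≤ G.card := by
      have h1 : (κ / 2 + 1 / 4) * X ≤ 3 / 4 * X := mul_le_mul_of_nonneg_right (by linarith) hX0.le
      linarith
    have hsub : (G.image (pv b s t L)).card ≤
        ((palin b (L + 1)).filter (fun n => ∃ p : ℕ, p.Prime ∧ p ∣ n ∧ (n : ℝ) ^ θ < (p : ℝ))).card := by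
      apply card_le_card
      intro n hn
      rw [mem_image] at hn
      obtain ⟨m, hm, rfl⟩ := hn
      rw [hG, mem_filter] at hm
      obtain ⟨_, hm2⟩ := hm
      push Not at hm2
      obtain ⟨p, hp1, hp2, hp3⟩ := hm2
      obtain ⟨h1, h2, h3, _⟩ := (hDig L).1 m
      rw [mem_filter]
      refine ⟨?_, p, hp1, hp2, lt_of_le_of_lt ?_ hp3⟩
      · unfold palin
        rw [mem_filter, mem_range]
        exact ⟨by rwa [show 2 * (L + 1) + 1 = 2 * L + 3 by ring], by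
          rw [show 2 * (L + 1) = 2 * L + 2 by ring]
          exact h1.le, h3⟩
      · have h6 : ((pv b s t L m : ℕ) : ℝ) ≤ (b : ℝ) ^ (2 * (L : ℝ) + 3) := by
          have h7 : ((pv b s t L m : ℕ) : ℝ) ≤ (b : ℝ) ^ (2 * L + 3) := by exact_mod_cast h2.le
          refine h7.trans (le_of_eq ?_)
          rw [← Real.rpow_natCast]
          congr 1
          push_cast
          ring
        calc ((pv b s t L m : ℕ) : ℝ) ^ θ ≤ ((b : ℝ) ^ (2 * (L : ℝ) + 3)) ^ θ :=
              Real.rpow_le_rpow (Nat.cast_nonneg _) h6 hθ0.le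
          _ = (b : ℝ) ^ ((2 * (L : ℝ) + 3) * θ) := by rw [← Real.rpow_mul hb0.le]
          _ ≤ (b : ℝ) ^ (κ * L) := Real.rpow_le_rpow_of_exponent_le (by linarith) hle
    have h3 : (G.card : ℝ) ^ 2 ≤
        (((palin b (L + 1)).filter (fun n => ∃ p : ℕ, p.Prime ∧ p ∣ n ∧ (n : ℝ) ^ θ < (p : ℝ))).card : ℝ) *
        ((Eset s t).card : ℝ) ^ L := by
      have : G.card ^ 2 ≤ ((palin b (L + 1)).filter
          (fun n => ∃ p : ℕ, p.Prime ∧ p ∣ n ∧ (n : ℝ) ^ θ < (p : ℝ))).card *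
          (Eset s t).card ^ L := (card_sq_le hb hbst G).trans (Nat.mul_le_mul_right _ hsub)
      exact_mod_cast this
    have h4 : (X / 4) ^ 2 ≤ (G.card : ℝ) ^ 2 := pow_le_pow_left₀ (by positivity) hG4 2
    have h5 := h4.trans h3
    rw [← div_le_iff₀ (by positivity)] at h5
    refine le_trans ?_ h5
    have h6 : (X / 4) ^ 2 / ((Eset s t).card : ℝ) ^ L = A ^ L / 16 := by
      rw [hA, div_pow ((((s : ℝ) * t) ^ 2)), ← pow_mul, mul_comm 2 L, pow_mul, hX]
      field_simp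
      norm_num
    rw [h6]
    have hB0 : 0 < B := by linarith
    rw [div_pow, div_lt_div_iff₀ (by positivity) (by positivity)] at hL3
    rw [le_div_iff₀ (by norm_num), pow_succ]
    linarith
  rw [eventually_atTop] at key ⊢
  obtain ⟨L0, hL0⟩ := key
  refine ⟨L0 + 1, fun N hN => ?_⟩
  obtain ⟨L, rfl⟩ : ∃ L, N = L + 1 := ⟨N - 1, by omega⟩
  exact hL0 L (by omega)

open Classical in
/-- all bases `b ≥ 3`, general exponent -/
theorem large_weighted {b : ℕ} (hb : 3 ≤ b) {θ : ℝ} (hθ0 : 0 < θ)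
    (hθ : (b : ℝ) ^ (2 * θ) * (b + 1) < 2 * (((b + 1) / 2 : ℕ) : ℝ) * (((b + 2) / 2 : ℕ) : ℝ)) :
    ∀ᶠ N : ℕ in atTop, (3 * (b : ℝ) / 4) ^ N ≤
    (((palin b N).filter (fun n => ∃ p : ℕ, p.Prime ∧ p ∣ n ∧ (n : ℝ) ^ θ < (p : ℝ))).card : ℝ) := by
  obtain ⟨s, hs⟩ : ∃ s, s = (b + 1) / 2 := ⟨_, rfl⟩
  obtain ⟨t, ht⟩ : ∃ t, t = b + 1 - s := ⟨_, rfl⟩
  have ht' : t = (b + 2) / 2 := by omega
  have hm4 : (b : ℝ) * m4 s t < 1 := by
    have h := Pool.Agent.W22.PWM4.main b hb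
    rw [← hs, ← ht] at h
    linarith
  have hE := energy_bound hb hs ht
  have hbR : (3 : ℝ) ≤ b := by exact_mod_cast hb
  have hb0 : (0 : ℝ) < b := by linarith
  have hs0 : (0 : ℝ) < s := by exact_mod_cast (by omega : 0 < s)
  have ht0 : (0 : ℝ) < t := by exact_mod_cast (by omega : 0 < t)
  have hst : (s : ℝ) + t = b + 1 := by exact_mod_cast (by omega : s + t = b + 1)
  rw [← hs, ← ht', ← hst] at hθ
  have hH : (b : ℝ) ^ (2 * θ) * HH s t < 1 := by
    unfold HH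
    rw [show (b : ℝ) ^ (2 * θ) * ((1 / (s : ℝ) + 1 / t) / 2) = ((b : ℝ) ^ (2 * θ) * (s + t)) / (2 * s * t) by
      field_simp; ring]
    rw [div_lt_one (by positivity)]
    exact hθ
  obtain ⟨κ, h1, h2⟩ : ∃ κ : ℝ, 2 * θ < κ ∧ (b : ℝ) ^ κ * HH s t < 1 := by
    have h2 : Tendsto (fun x : ℝ => (b : ℝ) ^ x * HH s t) (𝓝 (2 * θ)) (𝓝 ((b : ℝ) ^ (2 * θ) * HH s t)) := by
      apply Tendsto.mul_const
      exact Tendsto.rpow tendsto_const_nhds tendsto_id (Or.inl hb0.ne')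
    have h3 : ∀ᶠ x in 𝓝[>] (2 * θ), (b : ℝ) ^ x * HH s t < 1 :=
      (h2.eventually (gt_mem_nhds hH)).filter_mono nhdsWithin_le_nhds
    obtain ⟨x, hx1, hx2⟩ := (h3.and self_mem_nhdsWithin).exists
    exact ⟨x, hx2, hx1⟩
  exact weighted_large (κ := κ) (B := 3 * (b : ℝ) / 4) hb (by omega) (by omega) (by omega) (by linarith)
    h2 hm4 hθ0 h1 (by linarith) hE

open Classical in
/-- base ten -/
theorem large_ten : ∀ᶠ N : ℕ in atTop, (15 / 2 : ℝ) ^ N ≤
    (((palin 10 N).filter (fun n => ∃ p : ℕ, p.Prime ∧ p ∣ n ∧ (n : ℝ) ^ (46 / 125 : ℝ) < (p : ℝ))).card : ℝ) := by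
  have h1 : ((10 : ℕ) : ℝ) ^ (92 / 125 : ℝ) < 60 / 11 :=
    Pool.Agent.W139.PX.rpow_lt_of_pow (p := 92) (q := 125) (by norm_num) (by norm_num) (by norm_num) (by norm_num)
      (by norm_num)
  have h := large_weighted (b := 10) (θ := 46 / 125) (by norm_num) (by norm_num) (by
    rw [show (2 : ℝ) * (46 / 125) = 92 / 125 by norm_num]
    norm_num at h1 ⊢
    linarith)
  filter_upwards [h] with N hN
  refine le_trans (le_of_eq ?_) hN
  norm_num

end Pool.Agent.V7H46.PLF
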