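import Pool.Agent.V7H46.PLF.S1
import Mathlib.NumberTheory.Chebyshev

/-!
# Sums over `k` pairwise coprime prime powers dividing `n`
-/

set_option autoImplicit false

namespace Pool.Agent.V7H46.PLF

open Finset ArithmeticFunction

/-- the sum of `Λ(q₁) ⋯ Λ(q_k)` over `q₁, …, q_k ∈ Q` dividing `n`, pairwise coprime and coprime to `e` -/
noncomputable def TT (Q : Finset ℕ) (n : ℕ) : ℕ → ℕ → ℝ
  | 0, _ => 1
  | k + 1, e => ∑ q ∈ Q, if q.Coprime e ∧ q ∣ n then vonMangoldt q * TT Q n k (q * e) else 0

/-- the first moment -/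
noncomputable def ell (Q : Finset ℕ) (n : ℕ) : ℝ := ∑ q ∈ Q, if q ∣ n then vonMangoldt q else 0

lemma TT_nonneg (Q : Finset ℕ) (n : ℕ) : ∀ k e : ℕ, 0 ≤ TT Q n k e := by
  intro k
  induction k with
  | zero => intro e; exact zero_le_one
  | succ k ih =>
    intro e
    unfold TT
    refine sum_nonneg fun q _ => ?_
    split_ifs
    · exact mul_nonneg vonMangoldt_nonneg (ih _)
    · exact le_rfl

/-- powers of the primes dividing `e` -/
lemma noncop_le {Q : Finset ℕ} {N : ℕ} (hN : 1 ≤ N) (hQ : ∀ q ∈ Q, q ≤ N) (e : ℕ) (he : e ≠ 0) :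
    ∑ q ∈ Q, (if ¬ q.Coprime e then vonMangoldt q else 0) ≤ e.primeFactors.card * Real.log N := by
  classical
  have h1 : ∀ q ∈ Q, (if ¬ q.Coprime e then vonMangoldt q else 0) ≤
      ∑ p ∈ e.primeFactors, ∑ j ∈ Icc 1 (Nat.log p N), (if q = p ^ j then Real.log p else 0) := by
    intro q hq
    have h0 : ∀ p ∈ e.primeFactors, 0 ≤ ∑ j ∈ Icc 1 (Nat.log p N), (if q = p ^ j then Real.log p else 0) := by
      intro p _
      refine sum_nonneg fun j _ => ?_
      split_ifs
      · exact Real.log_natCast_nonneg p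
      · exact le_rfl
    split_ifs with hc
    · exact sum_nonneg h0
    · by_cases hΛ : vonMangoldt q = 0
      · rw [hΛ]
        exact sum_nonneg h0
      · have hpp : IsPrimePow q := vonMangoldt_ne_zero_iff.1 hΛ
        rw [isPrimePow_nat_iff] at hpp
        obtain ⟨p, j, hp, hj, rfl⟩ := hpp
        have hpe : p ∈ e.primeFactors := by
          rw [Nat.mem_primeFactors]
          refine ⟨hp, ?_, he⟩
          by_contra hcon
          exact hc (Nat.Coprime.pow_left j ((Nat.Prime.coprime_iff_not_dvd hp).2 hcon))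
        have hjN : j ∈ Icc 1 (Nat.log p N) := by
          rw [mem_Icc]
          exact ⟨hj, Nat.le_log_of_pow_le hp.one_lt (hQ _ hq)⟩
        calc vonMangoldt (p ^ j) = (if p ^ j = p ^ j then Real.log p else 0) := by
              rw [if_pos rfl, vonMangoldt_apply_pow hj.ne', vonMangoldt_apply_prime hp]
          _ ≤ ∑ i ∈ Icc 1 (Nat.log p N), (if p ^ j = p ^ i then Real.log p else 0) := by
              refine single_le_sum (f := fun i => (if p ^ j = p ^ i then Real.log p else 0)) (fun i _ => ?_) hjN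
              split_ifs
              · exact Real.log_natCast_nonneg p
              · exact le_rfl
          _ ≤ _ := single_le_sum (f := fun p' : ℕ => ∑ i ∈ Icc 1 (Nat.log p' N),
              (if p ^ j = p' ^ i then Real.log p' else 0)) h0 hpe
  calc ∑ q ∈ Q, (if ¬ q.Coprime e then vonMangoldt q else 0) ≤
        ∑ q ∈ Q, ∑ p ∈ e.primeFactors, ∑ j ∈ Icc 1 (Nat.log p N), (if q = p ^ j then Real.log p else 0) :=
        sum_le_sum h1
    _ = ∑ p ∈ e.primeFactors, ∑ j ∈ Icc 1 (Nat.log p N), ∑ q ∈ Q, (if q = p ^ j then Real.log p else 0) := by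
        rw [sum_comm]
        refine sum_congr rfl fun p _ => sum_comm
    _ ≤ ∑ p ∈ e.primeFactors, ∑ j ∈ Icc 1 (Nat.log p N), Real.log p := by
        refine sum_le_sum fun p _ => sum_le_sum fun j _ => ?_
        rw [sum_ite_eq']
        split_ifs
        · exact le_rfl
        · exact Real.log_natCast_nonneg p
    _ ≤ ∑ p ∈ e.primeFactors, Real.log N := by
        refine sum_le_sum fun p hp => ?_
        have hp' := Nat.prime_of_mem_primeFactors hp
        rw [sum_const, Nat.card_Icc, nsmul_eq_mul, Nat.add_sub_cancel, ← Real.log_pow]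
        apply Real.log_le_log
        · exact_mod_cast pow_pos hp'.pos _
        · exact_mod_cast Nat.pow_log_le_self p (by omega)
    _ = e.primeFactors.card * Real.log N := by rw [sum_const, nsmul_eq_mul]

/-- lower bound for the `k`-fold sums -/
lemma TT_ge {Q : Finset ℕ} {N n : ℕ} (hN : 1 ≤ N) (hQ : ∀ q ∈ Q, q ≤ N) : ∀ k e : ℕ, e ≠ 0 →
    ((e.primeFactors.card : ℝ) + k) * Real.log N ≤ ell Q n →
    ∏ i ∈ range k, (ell Q n - ((e.primeFactors.card : ℝ) + i) * Real.log N) ≤ TT Q n k e := by
  have hlN : 0 ≤ Real.log N := Real.log_natCast_nonneg N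
  intro k
  induction k with
  | zero => intro e _ _; simp [TT]
  | succ k ih =>
    intro e he hle
    push_cast at hle
    have hnn : ∀ i ∈ range k, 0 ≤ ell Q n - ((e.primeFactors.card : ℝ) + 1 + i) * Real.log N := by
      intro i hi
      rw [mem_range] at hi
      have : ((e.primeFactors.card : ℝ) + 1 + i) ≤ (e.primeFactors.card : ℝ) + (k + 1) := by
        have : (i : ℝ) ≤ k := by exact_mod_cast hi.le
        linarith
      have := mul_le_mul_of_nonneg_right this hlN
      linarith
    set Pr := ∏ i ∈ range k, (ell Q n - ((e.primeFactors.card : ℝ) + 1 + i) * Real.log N) with hPr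
    have hPr0 : 0 ≤ Pr := prod_nonneg hnn
    have h1 : ∑ q ∈ Q, (if q.Coprime e ∧ q ∣ n then vonMangoldt q * Pr else 0) ≤ TT Q n (k + 1) e := by
      conv_rhs => unfold TT
      refine sum_le_sum fun q hq => ?_
      split_ifs with hc
      · by_cases hΛ : vonMangoldt q = 0
        · rw [hΛ, zero_mul, zero_mul]
        · refine mul_le_mul_of_nonneg_left ?_ vonMangoldt_nonneg
          have hpp : IsPrimePow q := vonMangoldt_ne_zero_iff.1 hΛ
          rw [isPrimePow_nat_iff] at hpp
          obtain ⟨p, j, hp, hj, hpj⟩ := hpp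
          have hq0 : q ≠ 0 := by
            rw [← hpj]
            exact (pow_pos hp.pos j).ne'
          have hω : (q * e).primeFactors.card = e.primeFactors.card + 1 := by
            rw [Nat.Coprime.primeFactors_mul hc.1, card_union_of_disjoint (Nat.Coprime.disjoint_primeFactors hc.1),
              ← hpj, Nat.primeFactors_prime_pow hj.ne' hp, card_singleton, add_comm]
          have h2 := ih (q * e) (mul_ne_zero hq0 he) (by
            rw [hω]
            push_cast
            linarith)
          rw [hω] at h2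
          push_cast at h2
          exact h2
      · exact le_rfl
    refine le_trans ?_ h1
    have h3 : ell Q n - (e.primeFactors.card : ℝ) * Real.log N ≤
        ∑ q ∈ Q, (if q.Coprime e ∧ q ∣ n then vonMangoldt q else 0) := by
      have h4 := noncop_le hN hQ e he
      have h5 : ell Q n ≤ ∑ q ∈ Q, (if q.Coprime e ∧ q ∣ n then vonMangoldt q else 0) +
          ∑ q ∈ Q, (if ¬ q.Coprime e then vonMangoldt q else 0) := by
        unfold ell
        rw [← sum_add_distrib]
        refine sum_le_sum fun q _ => ?_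
        have h6 : 0 ≤ vonMangoldt q := vonMangoldt_nonneg
        by_cases hd : q ∣ n
        · by_cases hc : q.Coprime e
          · rw [if_pos hd, if_pos ⟨hc, hd⟩, if_neg (not_not.2 hc), add_zero]
          · rw [if_pos hd, if_neg (fun h => hc h.1), if_pos hc, zero_add]
        · rw [if_neg hd]
          refine add_nonneg ?_ ?_ <;> split_ifs <;> first | exact h6 | exact le_rfl
      linarith
    have h7 : ∑ q ∈ Q, (if q.Coprime e ∧ q ∣ n then vonMangoldt q * Pr else 0) =
        (∑ q ∈ Q, (if q.Coprime e ∧ q ∣ n then vonMangoldt q else 0)) * Pr := by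
      rw [sum_mul]
      refine sum_congr rfl fun q _ => ?_
      rw [ite_mul, zero_mul]
    rw [h7, prod_range_succ']
    have h8 : ∏ i ∈ range k, (ell Q n - ((e.primeFactors.card : ℝ) + ((i + 1 : ℕ) : ℝ)) * Real.log N) = Pr := by
      rw [hPr]
      refine prod_congr rfl fun i _ => ?_
      push_cast
      ring
    rw [h8, mul_comm]
    refine mul_le_mul_of_nonneg_right ?_ hPr0
    simpa using h3

/-! ### the upper bound -/

variable {b s t : ℕ}

/-- the remainder terms -/
noncomputable def RR (b s t L S : ℕ) (Q : Finset ℕ) : ℕ → ℕ → ℝ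
  | 0, e => |cS b s t L S e - ((s : ℝ) * t) ^ L / e|
  | k + 1, e => ∑ q ∈ Q, if q.Coprime e then vonMangoldt q * RR b s t L S Q k (q * e) else 0

lemma RR_nonneg (L S : ℕ) (Q : Finset ℕ) : ∀ k e : ℕ, 0 ≤ RR b s t L S Q k e := by
  intro k
  induction k with
  | zero => intro e; exact abs_nonneg _
  | succ k ih =>
    intro e
    unfold RR
    refine sum_nonneg fun q _ => ?_
    split_ifs
    · exact mul_nonneg vonMangoldt_nonneg (ih _)
    · exact le_rfl

/-- the sum over all palindromes divisible by `e` -/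
lemma VV_le (L S : ℕ) (Q : Finset ℕ) : ∀ k e : ℕ,
    ∑ m : Fin L → Fin s × Fin t, (if e ∣ pS b s t L S m then TT Q (pS b s t L S m) k e else 0) ≤
      ((s : ℝ) * t) ^ L / e * (∑ q ∈ Q, vonMangoldt q / (q : ℝ)) ^ k + RR b s t L S Q k e := by
  set X : ℝ := ((s : ℝ) * t) ^ L with hX
  have hX0 : 0 ≤ X := by positivity
  set Sg : ℝ := ∑ q ∈ Q, vonMangoldt q / (q : ℝ) with hSg
  have hSg0 : 0 ≤ Sg := sum_nonneg fun q _ => div_nonneg vonMangoldt_nonneg (Nat.cast_nonneg _)
  intro k
  induction k with
  | zero =>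
    intro e
    have h1 : ∑ m : Fin L → Fin s × Fin t, (if e ∣ pS b s t L S m then TT Q (pS b s t L S m) 0 e else 0) =
        cS b s t L S e := by
      unfold cS TT
      rw [← sum_filter, sum_const, nsmul_eq_mul, mul_one]
    rw [h1]
    unfold RR
    have := le_abs_self (cS b s t L S e - X / e)
    rw [pow_zero, mul_one]
    linarith
  | succ k ih =>
    intro e
    have h1 : ∑ m : Fin L → Fin s × Fin t, (if e ∣ pS b s t L S m then TT Q (pS b s t L S m) (k + 1) e else 0) =
        ∑ q ∈ Q, (if q.Coprime e then vonMangoldt q * ∑ m : Fin L → Fin s × Fin t,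
          (if (q * e) ∣ pS b s t L S m then TT Q (pS b s t L S m) k (q * e) else 0) else 0) := by
      have h2 : ∀ m : Fin L → Fin s × Fin t,
          (if e ∣ pS b s t L S m then TT Q (pS b s t L S m) (k + 1) e else 0) =
          ∑ q ∈ Q, (if q.Coprime e then vonMangoldt q *
            (if (q * e) ∣ pS b s t L S m then TT Q (pS b s t L S m) k (q * e) else 0) else 0) := by
        intro m
        by_cases hd : e ∣ pS b s t L S m
        · rw [if_pos hd]
          conv_lhs => unfold TT
          refine sum_congr rfl fun q _ => ?_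
          by_cases hc : q.Coprime e
          · by_cases hq : q ∣ pS b s t L S m
            · rw [if_pos ⟨hc, hq⟩, if_pos hc, if_pos (Nat.Coprime.mul_dvd_of_dvd_of_dvd hc hq hd)]
            · rw [if_neg (fun h => hq h.2), if_pos hc, if_neg (fun h => hq ((dvd_mul_right q e).trans h)), mul_zero]
          · rw [if_neg (fun h => hc h.1), if_neg hc]
        · rw [if_neg hd]
          symm
          apply sum_eq_zero
          intro q _
          by_cases hc : q.Coprime e
          · rw [if_pos hc, if_neg (fun h => hd ((dvd_mul_left e q).trans h)), mul_zero]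
          · rw [if_neg hc]
      rw [sum_congr rfl fun m _ => h2 m, sum_comm]
      refine sum_congr rfl fun q _ => ?_
      split_ifs
      · rw [mul_sum]
      · simp
    rw [h1]
    have h3 : ∀ q ∈ Q, (if q.Coprime e then vonMangoldt q * ∑ m : Fin L → Fin s × Fin t,
          (if (q * e) ∣ pS b s t L S m then TT Q (pS b s t L S m) k (q * e) else 0) else 0) ≤
        X / e * Sg ^ k * (vonMangoldt q / (q : ℝ)) +
          (if q.Coprime e then vonMangoldt q * RR b s t L S Q k (q * e) else 0) := by
      intro q _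
      have hΛ : 0 ≤ vonMangoldt q := vonMangoldt_nonneg
      split_ifs with hc
      · have h4 := mul_le_mul_of_nonneg_left (ih (q * e)) hΛ
        refine h4.trans (le_of_eq ?_)
        push_cast
        ring
      · rw [add_zero]
        positivity
    refine (sum_le_sum h3).trans (le_of_eq ?_)
    rw [sum_add_distrib, ← mul_sum]
    conv_rhs => unfold RR
    rw [pow_succ, ← hSg]
    ring

/-- the remainder terms on average -/
lemma RR_sum {Q : Finset ℕ} {N : ℕ} (hN : 1 ≤ N) (hQ : ∀ q ∈ Q, 1 ≤ q ∧ q ≤ N ∧ q.Coprime (2 * b)) (L S : ℕ) :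
    ∀ k M : ℕ, 1 ≤ M → ∑ e ∈ (Icc 1 M).filter (fun e => e.Coprime (2 * b)), RR b s t L S Q k e ≤
      (Real.log ((M * N ^ k : ℕ) : ℝ)) ^ k *
        ∑ d ∈ (Icc 1 (M * N ^ k)).filter (fun d => d.Coprime (2 * b)), |cS b s t L S d - ((s : ℝ) * t) ^ L / d| := by
  classical
  intro k
  induction k with
  | zero =>
    intro M _
    rw [pow_zero, pow_zero, mul_one, one_mul]
    exact le_rfl
  | succ k ih =>
    intro M hM
    have hMN : 1 ≤ M * N := Nat.one_le_iff_ne_zero.2 (mul_ne_zero (by omega) (by omega))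
    have h1 : ∑ e ∈ (Icc 1 M).filter (fun e => e.Coprime (2 * b)), RR b s t L S Q (k + 1) e ≤
        ∑ d ∈ (Icc 1 (M * N)).filter (fun d => d.Coprime (2 * b)), Real.log d * RR b s t L S Q k d := by
      have h2 : ∀ e ∈ (Icc 1 M).filter (fun e => e.Coprime (2 * b)), RR b s t L S Q (k + 1) e ≤
          ∑ q ∈ Q, vonMangoldt q * RR b s t L S Q k (q * e) := by
        intro e _
        conv_lhs => unfold RR
        refine sum_le_sum fun q _ => ?_
        split_ifs
        · exact le_rfl
        · exact mul_nonneg vonMangoldt_nonneg (RR_nonneg _ _ _ _ _)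
      refine (sum_le_sum h2).trans ?_
      have h3 : ∀ d ∈ (Icc 1 (M * N)).filter (fun d => d.Coprime (2 * b)), Real.log d * RR b s t L S Q k d =
          ∑ q ∈ d.divisors, vonMangoldt q * RR b s t L S Q k d := by
        intro d _
        rw [← sum_mul, vonMangoldt_sum]
      rw [sum_congr rfl h3, ← sum_product', sum_sigma']
      set F := (Icc 1 M).filter (fun e => e.Coprime (2 * b)) with hF
      set F' := (Icc 1 (M * N)).filter (fun e => e.Coprime (2 * b)) with hF'
      set g : ℕ × ℕ → (_ : ℕ) × ℕ := fun x => ⟨x.2 * x.1, x.2⟩ with hg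
      have hinj : Set.InjOn g (F ×ˢ Q : Finset (ℕ × ℕ)) := by
        intro x hx y hy h
        rw [mem_coe, mem_product] at hx hy
        simp only [hg, Sigma.mk.injEq, heq_eq_eq] at h
        obtain ⟨h5, h6⟩ := h
        rw [h6] at h5
        have := (hQ _ hy.2).1
        exact Prod.ext (Nat.eq_of_mul_eq_mul_left (by omega) h5) h6
      have h5 : ∑ x ∈ F ×ˢ Q, vonMangoldt x.2 * RR b s t L S Q k (x.2 * x.1) =
          ∑ y ∈ (F ×ˢ Q).image g, vonMangoldt y.2 * RR b s t L S Q k y.1 := by
        rw [sum_image hinj]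
      rw [h5]
      refine sum_le_sum_of_subset_of_nonneg ?_ fun y _ _ =>
        mul_nonneg vonMangoldt_nonneg (RR_nonneg _ _ _ _ _)
      intro y hy
      rw [mem_image] at hy
      obtain ⟨x, hx, rfl⟩ := hy
      rw [mem_product, hF, mem_filter, mem_Icc] at hx
      obtain ⟨⟨⟨hx1, hx2⟩, hx3⟩, hx4⟩ := hx
      obtain ⟨hq1, hq2, hq3⟩ := hQ _ hx4
      rw [mem_sigma, hF', mem_filter, mem_Icc, Nat.mem_divisors]
      have hpos : 1 ≤ x.2 * x.1 := Nat.one_le_iff_ne_zero.2 (mul_ne_zero (by omega) (by omega))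
      refine ⟨⟨⟨hpos, ?_⟩, Nat.Coprime.mul_left hq3 hx3⟩, dvd_mul_right _ _, Nat.one_le_iff_ne_zero.1 hpos⟩
      rw [mul_comm M N]
      exact Nat.mul_le_mul hq2 hx2
    have h4 : ∑ d ∈ (Icc 1 (M * N)).filter (fun d => d.Coprime (2 * b)), Real.log d * RR b s t L S Q k d ≤
        Real.log ((M * N ^ (k + 1) : ℕ) : ℝ) * ∑ d ∈ (Icc 1 (M * N)).filter (fun d => d.Coprime (2 * b)),
          RR b s t L S Q k d := by
      rw [mul_sum]
      refine sum_le_sum fun d hd => ?_
      rw [mem_filter, mem_Icc] at hd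
      refine mul_le_mul_of_nonneg_right ?_ (RR_nonneg _ _ _ _ _)
      apply Real.log_le_log (by exact_mod_cast hd.1.1)
      have h5 : M * N ≤ M * N ^ (k + 1) := Nat.mul_le_mul_left _ (by
        rw [pow_succ]
        exact Nat.le_mul_of_pos_left _ (pow_pos (by omega) k))
      exact_mod_cast hd.1.2.trans h5
    have h6 := ih (M * N) hMN
    have h7 : M * N * N ^ k = M * N ^ (k + 1) := by rw [pow_succ]; ring
    rw [h7] at h6
    have hl : 0 ≤ Real.log ((M * N ^ (k + 1) : ℕ) : ℝ) := Real.log_natCast_nonneg _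
    calc _ ≤ _ := h1
      _ ≤ _ := h4
      _ ≤ Real.log ((M * N ^ (k + 1) : ℕ) : ℝ) * ((Real.log ((M * N ^ (k + 1) : ℕ) : ℝ)) ^ k *
        ∑ d ∈ (Icc 1 (M * N ^ (k + 1))).filter (fun d => d.Coprime (2 * b)),
          |cS b s t L S d - ((s : ℝ) * t) ^ L / d|) := mul_le_mul_of_nonneg_left h6 hl
      _ = _ := by rw [pow_succ]; ring

end Pool.Agent.V7H46.PLF
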