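import Pool.Agent.W139.PX.F5
import Pool.Agent.W139.PX.D4

/-!
# Palindromes with an arbitrary additive constant

`pS b s t L S m = S + (weighted digits)`.  The proofs are those of `Pool.Agent.W261.PW_BV` (helper261),
`Pool.Agent.W809.PW.Sqr` (helper809) and `Pool.Agent.W139.PX.D3`, with the fixed first, middle and last digit replaced
by an arbitrary additive constant `S`; all bounds are uniform in `S`.
-/

set_option autoImplicit false

namespace Pool.Agent.V7H46.PLF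

open Finset Filter Topology Pool.Agent.Helper112
open Pool.Agent.H39R3.PB (ph ph_nonneg ph_le_one)
open Pool.Agent.H39R3.PS (EM)
open Pool.Agent.W89.PW
open Pool.Agent.W139.PX (MajP SS split')
open Pool.Agent.W809.PWSqr (EM_sum)
open Pool.Agent.W261.PWBV (U U_nonneg)
open Pool.Agent.H623R3.PBT8 (orth group coprime_pos)

/-- an additive constant plus the weighted digits `i_c + j_c` at the `L` inner positions -/
def pS (b s t L S : ℕ) (m : Fin L → Fin s × Fin t) : ℕ :=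
  S + ∑ c : Fin L, (((m c).1 : ℕ) + ((m c).2 : ℕ)) * fr b L c

/-- number of `m` with `q ∣ pS m` -/
noncomputable def cS (b s t L S q : ℕ) : ℝ :=
  ((univ : Finset (Fin L → Fin s × Fin t)).filter (fun m => q ∣ pS b s t L S m)).card

lemma norm_sum_pS {s t : ℕ} (hs : 0 < s) (ht : 0 < t) (b L S : ℕ) (α : ℝ) :
    ‖∑ m : Fin L → Fin s × Fin t, ee (α * (pS b s t L S m : ℝ))‖ =
      ((s : ℝ) * t) ^ L * Fw b s t L L α := by
  have hsr : (s : ℝ) ≠ 0 := by exact_mod_cast hs.ne'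
  have htr : (t : ℝ) ≠ 0 := by exact_mod_cast ht.ne'
  have h1 : ∀ m : Fin L → Fin s × Fin t, ee (α * (pS b s t L S m : ℝ)) =
      ee (α * (S : ℝ)) *
        ∏ c : Fin L, ee ((((m c).1 : ℕ) + ((m c).2 : ℕ) : ℝ) * (fr b L c * α)) := by
    intro m
    have h2 : ∏ c : Fin L, ee ((((m c).1 : ℕ) + ((m c).2 : ℕ) : ℝ) * (fr b L c * α)) =
        ee (∑ c : Fin L, (((m c).1 : ℕ) + ((m c).2 : ℕ) : ℝ) * (fr b L c * α)) := by
      have : ∀ S : Finset (Fin L), ∏ c ∈ S, ee ((((m c).1 : ℕ) + ((m c).2 : ℕ) : ℝ) * (fr b L c * α)) =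
          ee (∑ c ∈ S, (((m c).1 : ℕ) + ((m c).2 : ℕ) : ℝ) * (fr b L c * α)) := by
        intro S
        induction S using Finset.induction_on with
        | empty => simp [ls_ee_zero]
        | insert a S ha ih => rw [prod_insert ha, sum_insert ha, ls_ee_add, ih]
      exact this univ
    rw [h2, ← ls_ee_add]
    congr 1
    unfold pS
    push_cast
    rw [mul_add, mul_sum]
    congr 1
    refine sum_congr rfl fun c _ => ?_
    ring
  rw [sum_congr rfl (fun m _ => h1 m), ← mul_sum, norm_mul, ls_norm_ee, one_mul]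
  have h3 : ∑ m : Fin L → Fin s × Fin t,
      ∏ c : Fin L, ee ((((m c).1 : ℕ) + ((m c).2 : ℕ) : ℝ) * (fr b L c * α)) =
      ∏ c : Fin L, ∑ x : Fin s × Fin t, ee ((((x.1 : ℕ) : ℝ) + ((x.2 : ℕ) : ℝ)) * (fr b L c * α)) := by
    rw [Finset.prod_univ_sum, Fintype.piFinset_univ]
  rw [h3, norm_prod]
  have h4 : ∀ c : Fin L,
      ‖∑ x : Fin s × Fin t, ee ((((x.1 : ℕ) : ℝ) + ((x.2 : ℕ) : ℝ)) * (fr b L c * α))‖ =
      ((s : ℝ) * t) * ps s t (fr b L (c : ℕ) * α) := by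
    intro c
    have h5 : ∑ x : Fin s × Fin t, ee ((((x.1 : ℕ) : ℝ) + ((x.2 : ℕ) : ℝ)) * (fr b L c * α)) =
        (∑ i : Fin s, ee (((i : ℕ) : ℝ) * (fr b L c * α))) *
          ∑ j : Fin t, ee (((j : ℕ) : ℝ) * (fr b L c * α)) := by
      rw [Fintype.sum_mul_sum, ← Fintype.sum_prod_type']
      refine sum_congr rfl fun x _ => ?_
      rw [add_mul, ls_ee_add]
    rw [h5, norm_mul, Fin.sum_univ_eq_sum_range (fun x : ℕ => ee ((x : ℝ) * (fr b L c * α))) s,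
      Fin.sum_univ_eq_sum_range (fun x : ℕ => ee ((x : ℝ) * (fr b L c * α))) t]
    unfold ps ph
    generalize ‖∑ x ∈ range s, ee ((x : ℝ) * (fr b L c * α))‖ = u
    generalize ‖∑ x ∈ range t, ee ((x : ℝ) * (fr b L c * α))‖ = v
    field_simp
  rw [prod_congr rfl (fun c _ => h4 c), prod_mul_distrib, prod_const, card_univ, Fintype.card_fin]
  congr 1
  unfold Fw
  rw [Fin.prod_univ_eq_prod_range (fun j => ps s t (fr b L j * α)) L]

lemma cS_le {b s t : ℕ} (hs : 0 < s) (ht : 0 < t) (L S M : ℕ) (hM : 0 < M) :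
    cS b s t L S M ≤ ((s : ℝ) * t) ^ L * EM M (Fw b s t L L) := by
  classical
  have hM1 : (0 : ℝ) < M := by exact_mod_cast hM
  have h1 : ((M * cS b s t L S M : ℝ) : ℂ) =
      ∑ a ∈ range M, ∑ m : Fin L → Fin s × Fin t, ee (((a : ℝ) / M) * (pS b s t L S m : ℝ)) := by
    rw [Finset.sum_comm]
    have h2 : ∀ m : Fin L → Fin s × Fin t,
        ∑ a ∈ range M, ee (((a : ℝ) / M) * (pS b s t L S m : ℝ)) =
        if M ∣ pS b s t L S m then (M : ℂ) else 0 := by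
      intro m
      have h3 := Pool.Agent.H623R3.PBT8.orth hM (pS b s t L S m) 0
      simp only [Nat.modEq_zero_iff_dvd] at h3
      rw [← h3]
      refine Finset.sum_congr rfl fun a _ => ?_
      congr 1
      push_cast
      ring
    rw [Finset.sum_congr rfl fun m _ => h2 m, ← Finset.sum_filter, Finset.sum_const, nsmul_eq_mul]
    unfold cS
    push_cast
    ring
  have h2 : (M : ℝ) * cS b s t L S M ≤ ∑ a ∈ range M, ((s : ℝ) * t) ^ L * Fw b s t L L ((a : ℝ) / M) := by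
    have h3 : (0 : ℝ) ≤ M * cS b s t L S M := by
      unfold cS
      positivity
    have h4 : ‖((M * cS b s t L S M : ℝ) : ℂ)‖ = M * cS b s t L S M := by
      rw [Complex.norm_real, Real.norm_of_nonneg h3]
    rw [← h4, h1]
    refine (norm_sum_le _ _).trans (le_of_eq ?_)
    refine Finset.sum_congr rfl fun a _ => norm_sum_pS hs ht b L S _
  unfold EM
  rw [← Finset.mul_sum] at h2
  rw [← mul_div_assoc, le_div_iff₀ hM1]
  linarith

/-- counting by exponential sums -/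
theorem cS_bound {s t : ℕ} (hs : 0 < s) (ht : 0 < t) (b L S q : ℕ) (hq : q.Coprime (2 * b)) :
    |cS b s t L S q - ((s : ℝ) * t) ^ L / q| ≤
      ((s : ℝ) * t) ^ L / q * ∑ d ∈ q.divisors.filter (fun d => 1 < d), U b s t L d := by
  have hq0 := coprime_pos hq
  have hqr : (0 : ℝ) < q := by exact_mod_cast hq0
  have hqc : (q : ℂ) ≠ 0 := by exact_mod_cast hq0.ne'
  -- Fourier expansion
  set T : ℕ → ℂ := fun a => ∑ m : Fin L → Fin s × Fin t,
    ee ((a : ℝ) / q * (pS b s t L S m : ℝ)) with hT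
  have h1 : (cS b s t L S q : ℂ) = (1 / (q : ℂ)) * ∑ a ∈ range q, T a := by
    have h2 : (cS b s t L S q : ℂ) = ∑ m : Fin L → Fin s × Fin t,
        (1 / (q : ℂ)) * ∑ a ∈ range q, ee ((a : ℝ) * ((((pS b s t L S m : ℕ) : ℝ) - ((0 : ℕ) : ℝ)) / q)) := by
      unfold cS
      rw [Finset.card_filter]
      push_cast
      refine sum_congr rfl fun m _ => ?_
      have := orth hq0 (pS b s t L S m) 0
      push_cast at this
      rw [this]
      by_cases hm : q ∣ pS b s t L S m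
      · rw [if_pos hm, if_pos (Nat.modEq_zero_iff_dvd.2 hm)]
        push_cast
        field_simp
      · rw [if_neg hm, if_neg (fun h => hm (Nat.modEq_zero_iff_dvd.1 h))]
        simp
    rw [h2, ← mul_sum, sum_comm]
    congr 1
    refine sum_congr rfl fun a _ => ?_
    simp only [hT]
    refine sum_congr rfl fun m _ => ?_
    congr 1
    push_cast
    ring
  have hT0 : T 0 = ((s : ℂ) * t) ^ L := by
    simp only [hT]
    simp [ls_ee_zero]
  have hTn : ∀ a, ‖T a‖ = ((s : ℝ) * t) ^ L * Fw b s t L L ((a : ℝ) / q) := by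
    intro a
    simp only [hT]
    rw [norm_sum_pS hs ht]
  have h3 : (cS b s t L S q : ℂ) - ((s : ℂ) * t) ^ L / q =
      (1 / (q : ℂ)) * ∑ a ∈ (range q).erase 0, T a := by
    rw [h1, ← Finset.add_sum_erase _ _ (mem_range.2 hq0), hT0]
    ring
  have h4 : |cS b s t L S q - ((s : ℝ) * t) ^ L / q| ≤ (1 / (q : ℝ)) * ∑ a ∈ (range q).erase 0,
      ((s : ℝ) * t) ^ L * Fw b s t L L ((a : ℝ) / q) := by
    have h5 : |cS b s t L S q - ((s : ℝ) * t) ^ L / q| = ‖(cS b s t L S q : ℂ) - ((s : ℂ) * t) ^ L / q‖ := by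
      rw [← Real.norm_eq_abs, ← Complex.norm_real]
      push_cast
      rfl
    rw [h5, h3, norm_mul]
    have h6 : ‖(1 / (q : ℂ))‖ = 1 / (q : ℝ) := by simp
    rw [h6]
    refine mul_le_mul_of_nonneg_left ?_ (by positivity)
    refine (norm_sum_le _ _).trans (le_of_eq ?_)
    exact sum_congr rfl fun a _ => hTn a
  refine h4.trans (le_of_eq ?_)
  rw [← mul_sum]
  have h7 : ∑ a ∈ (range q).erase 0, Fw b s t L L ((a : ℝ) / q) =
      ∑ d ∈ q.divisors.filter (fun d => 1 < d), U b s t L d := by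
    have h8 := group hq0 (Fw b s t L L)
    rw [← Finset.add_sum_erase _ _ (mem_range.2 hq0)] at h8
    have h9 : q.divisors.filter (fun d => 1 < d) = q.divisors.erase 1 := by
      ext d
      rw [mem_filter, mem_erase, Nat.mem_divisors]
      constructor
      · rintro ⟨h1, h2⟩
        exact ⟨by omega, h1⟩
      · rintro ⟨h1, h2⟩
        refine ⟨h2, ?_⟩
        have := Nat.pos_of_dvd_of_pos h2.1 hq0
        omega
    have h10 : (1 : ℕ) ∈ q.divisors := Nat.one_mem_divisors.2 hq0.ne'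
    rw [← Finset.add_sum_erase _ _ h10] at h8
    have h11 : ∑ a ∈ (range 1).filter (fun a => a.Coprime 1), Fw b s t L L ((a : ℝ) / (1 : ℕ)) =
        Fw b s t L L (((0 : ℕ) : ℝ) / q) := by
      simp
    rw [h11] at h8
    rw [h9]
    unfold U
    linarith
  rw [h7]
  ring

/-- covering by dyadic blocks -/
lemma coverS (b s t : ℕ) (L S : ℕ) (E : Finset ℕ) (Z : ℝ) (hZ : ∀ e ∈ E,
    ∑ m ∈ (Ico (2 ^ e) (2 * 2 ^ e)).filter (fun m => m.Coprime (2 * b)), cS b s t L S (m ^ 2) ≤ Z)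
    (Q : (Fin L → Fin s × Fin t) → Prop) [DecidablePred Q]
    (hQ : ∀ m, Q m → ∃ e ∈ E, ∃ p : ℕ, 2 ^ e ≤ p ∧ p < 2 * 2 ^ e ∧ p.Coprime (2 * b) ∧
      p ^ 2 ∣ pS b s t L S m) :
    (((univ : Finset (Fin L → Fin s × Fin t)).filter Q).card : ℝ) ≤ E.card * Z := by
  classical
  have hsub : (univ : Finset (Fin L → Fin s × Fin t)).filter Q ⊆
      E.biUnion fun e => ((Ico (2 ^ e) (2 * 2 ^ e)).filter (fun m => m.Coprime (2 * b))).biUnion
        fun p => (univ : Finset (Fin L → Fin s × Fin t)).filter (fun m => p ^ 2 ∣ pS b s t L S m) := by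
    intro m hm
    obtain ⟨e, he, p, h1, h2, h3, h4⟩ := hQ m (Finset.mem_filter.1 hm).2
    rw [Finset.mem_biUnion]
    refine ⟨e, he, ?_⟩
    rw [Finset.mem_biUnion]
    refine ⟨p, ?_, ?_⟩
    · rw [Finset.mem_filter, Finset.mem_Ico]; exact ⟨⟨h1, h2⟩, h3⟩
    · rw [Finset.mem_filter]
      exact ⟨Finset.mem_univ _, h4⟩
  have h1 : (((univ : Finset (Fin L → Fin s × Fin t)).filter Q).card : ℝ) ≤
      ∑ e ∈ E, ∑ p ∈ (Ico (2 ^ e) (2 * 2 ^ e)).filter (fun m => m.Coprime (2 * b)),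
        cS b s t L S (p ^ 2) := by
    have h2 : ((univ : Finset (Fin L → Fin s × Fin t)).filter Q).card ≤
        ∑ e ∈ E, ∑ p ∈ (Ico (2 ^ e) (2 * 2 ^ e)).filter (fun m => m.Coprime (2 * b)),
          ((univ : Finset (Fin L → Fin s × Fin t)).filter (fun m => p ^ 2 ∣ pS b s t L S m)).card := by
      refine (Finset.card_le_card hsub).trans (Finset.card_biUnion_le.trans ?_)
      exact Finset.sum_le_sum fun e _ => Finset.card_biUnion_le
    have h3 : (((univ : Finset (Fin L → Fin s × Fin t)).filter Q).card : ℝ) ≤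
        ((∑ e ∈ E, ∑ p ∈ (Ico (2 ^ e) (2 * 2 ^ e)).filter (fun m => m.Coprime (2 * b)),
          ((univ : Finset (Fin L → Fin s × Fin t)).filter
            (fun m => p ^ 2 ∣ pS b s t L S m)).card : ℕ) : ℝ) := by
      exact_mod_cast h2
    refine h3.trans (le_of_eq ?_)
    push_cast
    refine Finset.sum_congr rfl fun e _ => Finset.sum_congr rfl fun p _ => ?_
    unfold cS
    congr!
  refine h1.trans ((Finset.sum_le_sum hZ).trans (le_of_eq ?_))
  rw [Finset.sum_const, nsmul_eq_mul]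

/-- one dyadic block of squares -/
theorem sq_blockS {b s t : ℕ} {H CM : ℝ} (hMaj : MajP b s t H CM) (hb : 2 ≤ b) (hs : 1 ≤ s) (ht : 1 ≤ t)
    (hst : s + t = b + 1) (L S k K J P : ℕ) (T lam : ℝ) (h0 : 0 < lam)
    (hT : ∀ n : ℕ, 1 ≤ n → n ≤ b ^ (2 * L + 3) → (n.divisors.card : ℝ) ≤ T)
    (hK1 : 1 ≤ K) (hJk : J ≤ k * K) (hJL : J ≤ L) (h2 : b ^ (J + 1) ≤ P) (h3 : P ≤ b ^ (J + 2)) :
    ∑ m ∈ (Ico P (2 * P)).filter (fun m => m.Coprime (2 * b)), cS b s t L S (m ^ 2) ≤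
      ((s : ℝ) * t) ^ L * (k * lam * (P * (CM * H ^ (L - K)) + T) +
        b ^ 2 * (b * m4 s t) ^ J / lam ^ (3 * k)) := by
  have h4 := Pool.Agent.W342.PW2.mainSq4
  have hP1 : 1 ≤ P := (Nat.one_le_pow _ _ (by omega)).trans h2
  obtain ⟨Z, hS⟩ : ∃ Z, (Ico P (2 * P)).filter (fun m => m.Coprime (2 * b)) = Z := ⟨_, rfl⟩
  rw [hS]
  have hmem : ∀ m ∈ Z, P ≤ m ∧ m < 2 * P ∧ m.Coprime (2 * b) := by
    intro m hm
    rw [← hS, mem_filter, mem_Ico] at hm
    exact ⟨hm.1.1, hm.1.2, hm.2⟩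
  have hm4 : 0 ≤ m4 s t := by unfold m4; positivity
  -- the fourth power part
  have hA : ∀ m ∈ Z, EM (m ^ 2) (fun x => Fw b s t L J x ^ 4) ≤ m4 s t ^ J := by
    intro m hm
    obtain ⟨g1, _, g3⟩ := hmem m hm
    exact h4 b s t hb hs ht hst L J (m ^ 2) hJL (by
      calc b ^ (2 * J + 2) = (b ^ (J + 1)) ^ 2 := by rw [← pow_mul]; congr 1; ring
        _ ≤ m ^ 2 := Nat.pow_le_pow_left (h2.trans g1) 2)
      ((Nat.Coprime.coprime_dvd_right (Dvd.intro_left 2 rfl) g3).pow_left 2)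
  have hcard : (Z.card : ℝ) ≤ (b : ℝ) ^ (J + 2) := by
    have : Z.card ≤ b ^ (J + 2) := by
      rw [← hS]
      refine (card_filter_le _ _).trans ?_
      rw [Nat.card_Ico]; omega
    exact_mod_cast this
  -- the majorant part
  have hG' : ∀ i, ∑ m ∈ Z, EM (m ^ 2) (fun x => ∏ c ∈ SS L J K i, ps s t (fr b L c * x)) ≤
      P * (CM * H ^ (L - K)) + T := by
    intro i
    have e1 := (hMaj L J K i T hK1 hT).2 P hP1
    rw [hS] at e1
    exact e1
  calc ∑ m ∈ Z, cS b s t L S (m ^ 2) ≤ ∑ m ∈ Z, ((s : ℝ) * t) ^ L * ((∑ i ∈ range k, lam * EM (m ^ 2)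
        (fun x => ∏ c ∈ SS L J K i, ps s t (fr b L c * x))) +
        (lam ^ (3 * k))⁻¹ * EM (m ^ 2) (fun x => Fw b s t L J x ^ 4)) := by
        refine sum_le_sum fun m hm => ?_
        obtain ⟨g1, _, g3⟩ := hmem m hm
        refine (cS_le hs ht L S (m ^ 2) (pow_pos (by omega) 2)).trans ?_
        refine mul_le_mul_of_nonneg_left ?_ (by positivity)
        rw [← EM_sum]
        exact Pool.Agent.W809.PWSqr.EM_mono _ _ _ fun x => split' L J k K lam h0 hJk hJL x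
    _ = ((s : ℝ) * t) ^ L * ((∑ i ∈ range k, lam * ∑ m ∈ Z, EM (m ^ 2)
        (fun x => ∏ c ∈ SS L J K i, ps s t (fr b L c * x))) +
        (lam ^ (3 * k))⁻¹ * ∑ m ∈ Z, EM (m ^ 2) (fun x => Fw b s t L J x ^ 4)) := by
        rw [← mul_sum, sum_add_distrib, sum_comm, ← mul_sum]
        simp only [mul_sum]
    _ ≤ ((s : ℝ) * t) ^ L * ((∑ i ∈ range k, lam * (P * (CM * H ^ (L - K)) + T)) +
        (lam ^ (3 * k))⁻¹ * (b ^ 2 * (b * m4 s t) ^ J)) := by
        refine mul_le_mul_of_nonneg_left ?_ (by positivity)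
        refine add_le_add ?_ ?_
        · exact sum_le_sum fun i _ => mul_le_mul_of_nonneg_left (hG' i) h0.le
        · refine mul_le_mul_of_nonneg_left ?_ (by positivity)
          refine (sum_le_sum hA).trans ?_
          rw [sum_const, nsmul_eq_mul]
          calc (Z.card : ℝ) * m4 s t ^ J ≤ (b : ℝ) ^ (J + 2) * m4 s t ^ J :=
                mul_le_mul_of_nonneg_right hcard (by positivity)
            _ = b ^ 2 * (b * m4 s t) ^ J := by rw [mul_pow, pow_add]; ring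
    _ = ((s : ℝ) * t) ^ L * (k * lam * (P * (CM * H ^ (L - K)) + T) +
        b ^ 2 * (b * m4 s t) ^ J / lam ^ (3 * k)) := by
        rw [sum_const, card_range, nsmul_eq_mul]
        congr 1
        rw [div_eq_mul_inv, mul_assoc]
        ring

/-- one block with the choice of parameters -/
lemma blockS {b s t : ℕ} {H CM : ℝ} (hMaj : MajP b s t H CM) (hh : 0 < H) (hh1 : H ≤ 1)
    (hCM : 0 < CM) (hb : 2 ≤ b) (hs : 1 ≤ s) (ht : 1 ≤ t)
    (hst : s + t = b + 1) {a κ : ℝ} (ha0 : 0 < a) (ha1 : a < 1) (ha : (b : ℝ) * m4 s t ≤ a)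
    (k : ℕ) (hk : 1 ≤ k) (hκk : (b : ℝ) ^ κ * H * H ^ (-(1 / (k : ℝ))) ≤ 1)
    (L S J P : ℕ) (T : ℝ)
    (hT : ∀ n : ℕ, 1 ≤ n → n ≤ b ^ (2 * L + 3) → (n.divisors.card : ℝ) ≤ T)
    (hJL : J ≤ L) (hP : (P : ℝ) ≤ (b : ℝ) ^ (κ * L)) (h2 : b ^ (J + 1) ≤ P) (h3 : P ≤ b ^ (J + 2)) :
    ∑ m ∈ (Ico P (2 * P)).filter (fun m => m.Coprime (2 * b)), cS b s t L S (m ^ 2) ≤
      (k * (1 + CM * H⁻¹ ^ 2) + b ^ 2) * ((s : ℝ) * t) ^ L * T * a ^ (J / (6 * k)) := by
  have hb0 : (0 : ℝ) < b := by exact_mod_cast (show 0 < b by omega)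
  have hT1 : 1 ≤ T := by
    have := hT 1 le_rfl (Nat.one_le_pow _ _ (by omega))
    simpa using this
  have hm4 : 0 ≤ m4 s t := by unfold m4; positivity
  have hkr : (0 : ℝ) < k := by exact_mod_cast hk
  obtain ⟨lam, hlam⟩ : ∃ lam : ℝ, a ^ (J / (6 * k)) = lam := ⟨_, rfl⟩
  have hl0 : 0 < lam := by rw [← hlam]; positivity
  have h5 := sq_blockS hMaj (by omega) hs ht hst L S k (J / k + 1) J P T lam hl0 hT (Nat.le_add_left 1 _)
    (by
      have := Nat.lt_mul_div_succ J (show 0 < k by omega)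
      rw [← Nat.succ_eq_add_one]; exact this.le) hJL h2 h3
  rw [hlam]
  refine h5.trans ?_
  have h6 : (b * m4 s t : ℝ) ^ J / lam ^ (3 * k) ≤ lam := by
    rw [div_le_iff₀ (by positivity), ← pow_succ', ← hlam, ← pow_mul]
    calc (b * m4 s t : ℝ) ^ J ≤ a ^ J := pow_le_pow_left₀ (by positivity) ha _
      _ ≤ _ := by
        apply pow_le_pow_of_le_one ha0.le ha1.le
        have e1 : J / (6 * k) * (6 * k) ≤ J := Nat.div_mul_le_self _ _
        have e2 : 3 * k + 1 ≤ 6 * k := by omega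
        calc J / (6 * k) * (3 * k + 1) ≤ J / (6 * k) * (6 * k) := Nat.mul_le_mul_left _ e2
          _ ≤ J := e1
  have h7 : (P : ℝ) * H ^ (L - (J / k + 1)) ≤ H⁻¹ ^ 2 := by
    have e1 : H ^ (L - (J / k + 1)) ≤ H ^ ((L : ℝ) - ((L : ℝ) / k + 1)) := by
      rw [← Real.rpow_natCast]
      apply Real.rpow_le_rpow_of_exponent_ge hh hh1
      have e2 : L ≤ (L - (J / k + 1)) + (J / k + 1) := by omega
      have e3 : (L : ℝ) ≤ ((L - (J / k + 1) : ℕ) : ℝ) + ((J / k + 1 : ℕ) : ℝ) := by exact_mod_cast e2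
      have e4 : ((J / k : ℕ) : ℝ) ≤ (J : ℝ) / k := Nat.cast_div_le
      have e5 : (J : ℝ) / k ≤ (L : ℝ) / k := by
        apply div_le_div_of_nonneg_right _ hkr.le
        exact_mod_cast hJL
      push_cast at e3
      linarith
    have e2 : H ^ ((L : ℝ) - ((L : ℝ) / k + 1)) =
        (H * H ^ (-(1 / (k : ℝ)))) ^ (L : ℝ) * H⁻¹ := by
      rw [Real.mul_rpow hh.le (Real.rpow_nonneg hh.le _), ← Real.rpow_mul hh.le,
        ← Real.rpow_add hh, ← Real.rpow_neg_one, ← Real.rpow_add hh]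
      congr 1
      ring
    calc (P : ℝ) * H ^ (L - (J / k + 1)) ≤ (b : ℝ) ^ (κ * L) *
          ((H * H ^ (-(1 / (k : ℝ)))) ^ (L : ℝ) * H⁻¹) := by
          rw [← e2]
          exact mul_le_mul hP e1 (by positivity) (by positivity)
      _ = ((b : ℝ) ^ κ * H * H ^ (-(1 / (k : ℝ)))) ^ (L : ℝ) * H⁻¹ := by
          rw [Real.rpow_mul hb0.le, mul_assoc ((b : ℝ) ^ κ),
            Real.mul_rpow (Real.rpow_nonneg hb0.le _) (mul_nonneg hh.le (Real.rpow_nonneg hh.le _))]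
          ring
      _ ≤ 1 * H⁻¹ := by
          apply mul_le_mul_of_nonneg_right _ (inv_nonneg.2 hh.le)
          exact Real.rpow_le_one (by positivity) hκk (Nat.cast_nonneg _)
      _ ≤ H⁻¹ ^ 2 := by
          have : 1 ≤ H⁻¹ := (one_le_inv₀ hh).2 hh1
          nlinarith
  have hh2 : 0 ≤ CM * H⁻¹ ^ 2 := by positivity
  have h7' : (P : ℝ) * (CM * H ^ (L - (J / k + 1))) ≤ CM * H⁻¹ ^ 2 := by
    have := mul_le_mul_of_nonneg_left h7 hCM.le
    linarith
  have h8 : (k : ℝ) * lam * (P * (CM * H ^ (L - (J / k + 1))) + T) ≤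
      k * lam * ((1 + CM * H⁻¹ ^ 2) * T) := by
    apply mul_le_mul_of_nonneg_left _ (by positivity)
    nlinarith
  have h9 : (b : ℝ) ^ 2 * (b * m4 s t) ^ J / lam ^ (3 * k) ≤ b ^ 2 * lam * T := by
    rw [mul_div_assoc]
    calc (b : ℝ) ^ 2 * ((b * m4 s t) ^ J / lam ^ (3 * k)) ≤ b ^ 2 * lam :=
          mul_le_mul_of_nonneg_left h6 (by positivity)
      _ ≤ b ^ 2 * lam * T := le_mul_of_one_le_right (by positivity) hT1
  calc ((s : ℝ) * t) ^ L * (k * lam * (P * (CM * H ^ (L - (J / k + 1))) + T) +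
        b ^ 2 * (b * m4 s t) ^ J / lam ^ (3 * k))
      ≤ ((s : ℝ) * t) ^ L * (k * lam * ((1 + CM * H⁻¹ ^ 2) * T) + b ^ 2 * lam * T) :=
        mul_le_mul_of_nonneg_left (add_le_add h8 h9) (by positivity)
    _ = (k * (1 + CM * H⁻¹ ^ 2) + b ^ 2) * ((s : ℝ) * t) ^ L * T * lam := by ring

open Classical in
/-- palindromes divisible by large squares, from a majorant with mean `H` -/
theorem sqS_of_majP {b s t : ℕ} {H CM : ℝ} (hMaj : MajP b s t H CM) (hh : 0 < H) (hHb : 1 ≤ b * H)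
    (hCM : 0 < CM) (hb : 2 ≤ b) (hs : 1 ≤ s) (ht : 1 ≤ t) (hst : s + t = b + 1)
    (hm : (b : ℝ) * m4 s t < 1) {κ : ℝ} (hκ0 : 0 < κ) (hκ : (b : ℝ) ^ κ * H < 1) : ∀ η : ℝ, 0 < η →
    ∀ A : ℕ, ∀ᶠ L : ℕ in atTop, ∀ S : ℕ,
    (((univ : Finset (Fin L → Fin s × Fin t)).filter (fun m => ∃ p : ℕ, p.Coprime (2 * b) ∧
      (b : ℝ) ^ (η * L) ≤ p ∧ (p : ℝ) ≤ (b : ℝ) ^ (κ * L) ∧ p ^ 2 ∣ pS b s t L S m)).card : ℝ)
      ≤ ((s : ℝ) * t) ^ L / (L : ℝ) ^ A := by
  classical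
  intro η hη A
  have hbR : (2 : ℝ) ≤ b := by exact_mod_cast hb
  have hb1 : (1 : ℝ) < b := by linarith
  have hb0 : (0 : ℝ) < b := by linarith
  have hst0 : (0 : ℝ) < (s : ℝ) * t := by
    have h1 : (0 : ℝ) < s := by exact_mod_cast hs
    have h2 : (0 : ℝ) < t := by exact_mod_cast ht
    positivity
  have hκ1 : κ < 1 := by
    by_contra hcon
    push Not at hcon
    have h1 : (b : ℝ) ≤ (b : ℝ) ^ κ := by
      calc (b : ℝ) = (b : ℝ) ^ (1 : ℝ) := (Real.rpow_one _).symm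
        _ ≤ _ := Real.rpow_le_rpow_of_exponent_le hb1.le hcon
    have h2 : (b : ℝ) * H ≤ (b : ℝ) ^ κ * H := mul_le_mul_of_nonneg_right h1 hh.le
    linarith
  have hh1 : H ≤ 1 := by
    have h1 : 1 ≤ (b : ℝ) ^ κ := Real.one_le_rpow hb1.le hκ0.le
    have h2 : 1 * H ≤ (b : ℝ) ^ κ * H := mul_le_mul_of_nonneg_right h1 hh.le
    linarith
  obtain ⟨a, ha⟩ : ∃ a : ℝ, max ((b : ℝ) * m4 s t) (1 / 2) = a := ⟨_, rfl⟩
  have ha0 : 0 < a := by rw [← ha]; exact lt_of_lt_of_le (by norm_num) (le_max_right _ _)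
  have ha1 : a < 1 := by rw [← ha]; exact max_lt hm (by norm_num)
  have ham : (b : ℝ) * m4 s t ≤ a := by rw [← ha]; exact le_max_left _ _
  -- the number of blocks
  obtain ⟨k, hk, hkκ⟩ : ∃ k : ℕ, 1 ≤ k ∧
      (b : ℝ) ^ κ * H * H ^ (-(1 / (k : ℝ))) ≤ 1 := by
    have hlim : Tendsto (fun k : ℕ => (b : ℝ) ^ κ * H * H ^ (-(1 / (k : ℝ)))) atTop
        (𝓝 ((b : ℝ) ^ κ * H * H ^ (-(0 : ℝ)))) := by
      apply Tendsto.const_mul
      apply Tendsto.rpow tendsto_const_nhds _ (Or.inl hh.ne')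
      exact tendsto_one_div_atTop_nhds_zero_nat.neg
    rw [neg_zero, Real.rpow_zero, mul_one] at hlim
    obtain ⟨k, h1, h2⟩ := ((hlim.eventually (gt_mem_nhds hκ)).and (eventually_ge_atTop 1)).exists
    exact ⟨k, h2, h1.le⟩
  have hkr : (1 : ℝ) ≤ k := by exact_mod_cast hk
  have hkr0 : (0 : ℝ) < k := by linarith
  obtain ⟨ρ, hρ⟩ : ∃ ρ : ℝ, a ^ (η / (12 * k)) = ρ := ⟨_, rfl⟩
  have hρ0 : 0 < ρ := by rw [← hρ]; positivity
  have hρ1 : ρ < 1 := by
    rw [← hρ]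
    exact Real.rpow_lt_one ha0.le ha1 (by positivity)
  obtain ⟨δ, hδ⟩ : ∃ δ : ℝ, Real.logb b (ρ⁻¹) / 2 = δ := ⟨_, rfl⟩
  have hδ0 : 0 < δ := by
    rw [← hδ]
    have := Real.logb_pos (b := b) hb1 ((one_lt_inv₀ hρ0).2 hρ1)
    linarith
  have h10 : (b : ℝ) ^ (2 * δ) = ρ⁻¹ := by
    rw [← hδ, mul_div_cancel₀ _ (two_ne_zero)]
    exact Real.rpow_logb hb0 hb1.ne' (inv_pos.2 hρ0)
  obtain ⟨C, hC0, hC⟩ := divisor_bound δ hδ0
  obtain ⟨C1, hC1⟩ : ∃ C1 : ℝ, (k * (1 + CM * H⁻¹ ^ 2) + (b : ℝ) ^ 2) = C1 := ⟨_, rfl⟩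
  have hC10 : 0 < C1 := by rw [← hC1]; positivity
  obtain ⟨C2, hC2⟩ : ∃ C2 : ℝ, (b : ℝ) * C1 * C * ρ⁻¹ ^ 2 * (a ^ 2)⁻¹ = C2 := ⟨_, rfl⟩
  have hK0 : (0 : ℝ) < C2 := by rw [← hC2]; positivity
  have hlim := tendsto_pow_const_mul_const_pow_of_abs_lt_one (A + 1) (r := ρ)
    (by rw [abs_of_pos hρ0]; exact hρ1)
  have hev : ∀ᶠ L : ℕ in atTop, (L : ℝ) ^ (A + 1) * ρ ^ L < C2⁻¹ :=
    hlim.eventually (gt_mem_nhds (inv_pos.2 hK0))
  obtain ⟨L0, hL0'⟩ := exists_nat_gt (4 / η)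
  filter_upwards [hev, eventually_ge_atTop (max L0 1)] with L hL1 hL2 S
  have hL2a : L0 ≤ L := (le_max_left _ _).trans hL2
  have hL2b : 1 ≤ L := (le_max_right _ _).trans hL2
  have hL0 : (0 : ℝ) < L := by exact_mod_cast hL2b
  have hηL : 4 < η * L := by
    have e1 : (4 / η : ℝ) < L := lt_of_lt_of_le hL0' (by exact_mod_cast hL2a)
    rw [div_lt_iff₀ hη] at e1
    linarith
  obtain ⟨T, hTdef⟩ : ∃ T : ℝ, C * ((b : ℝ) ^ (2 * L + 4)) ^ δ = T := ⟨_, rfl⟩
  have hT : ∀ n : ℕ, 1 ≤ n → n ≤ b ^ (2 * L + 3) → (n.divisors.card : ℝ) ≤ T := by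
    intro n h1 h2
    refine (hC n h1).trans ?_
    rw [← hTdef]
    refine mul_le_mul_of_nonneg_left ?_ hC0.le
    refine Real.rpow_le_rpow (Nat.cast_nonneg _) ?_ hδ0.le
    exact_mod_cast h2.trans (Nat.pow_le_pow_right (by omega) (by omega))
  have hTval : T = C * ρ⁻¹ ^ 2 * (ρ⁻¹) ^ L := by
    rw [mul_assoc C, ← pow_add, ← hTdef, ← h10, ← Real.rpow_natCast, ← Real.rpow_natCast,
      ← Real.rpow_mul hb0.le, ← Real.rpow_mul hb0.le]
    congr 2
    push_cast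
    ring
  have hT0 : 0 ≤ T := by rw [hTval]; positivity
  have hlamk : ∀ J : ℕ, η * L ≤ J + 3 → a ^ (J / (6 * k)) ≤ (ρ ^ L) ^ 2 * (a ^ 2)⁻¹ := by
    intro J hJ
    have e0 : η * L / (6 * k) - 2 ≤ ((J / (6 * k) : ℕ) : ℝ) := by
      have h1 : J ≤ 6 * k * (J / (6 * k)) + 6 * k := by
        have := Nat.lt_mul_div_succ J (show 0 < 6 * k by omega)
        rw [mul_add, mul_one] at this
        omega
      have h2 : (J : ℝ) ≤ 6 * k * ((J / (6 * k) : ℕ) : ℝ) + 6 * k := by exact_mod_cast h1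
      rw [sub_le_iff_le_add, div_le_iff₀ (by positivity)]
      nlinarith
    have e1 : a ^ (J / (6 * k)) ≤ a ^ (η * L / (6 * k) - 2) := by
      rw [← Real.rpow_natCast]
      exact Real.rpow_le_rpow_of_exponent_ge ha0 ha1.le e0
    refine e1.trans (le_of_eq ?_)
    rw [← hρ, ← pow_mul, ← Real.rpow_natCast, ← Real.rpow_mul ha0.le,
      Real.rpow_sub ha0, div_eq_mul_inv]
    congr 1
    · congr 1
      push_cast
      field_simp
      ring
    · congr 1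
      exact_mod_cast Real.rpow_natCast a 2
  -- dyadic blocks
  let E : Finset ℕ := (range (b * L)).filter fun e =>
    ∃ J : ℕ, J ≤ L ∧ η * L ≤ (J : ℝ) + 3 ∧ b ^ (J + 1) ≤ 2 ^ e ∧ 2 ^ e ≤ b ^ (J + 2) ∧
      (((2 ^ e : ℕ) : ℝ)) ≤ (b : ℝ) ^ (κ * L)
  have hE : ∀ e ∈ E,
      ∑ m ∈ (Ico (2 ^ e) (2 * 2 ^ e)).filter (fun m => m.Coprime (2 * b)), cS b s t L S (m ^ 2) ≤
        C1 * ((s : ℝ) * t) ^ L * T * ((ρ ^ L) ^ 2 * (a ^ 2)⁻¹) := by
    intro e he
    obtain ⟨_, J, h1, h2, h3, h5, h6⟩ := Finset.mem_filter.1 he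
    have h7 := blockS hMaj hh hh1 hCM hb hs ht hst ha0 ha1 ham k hk hkκ L S J (2 ^ e) T hT h1 h6 h3 h5
    rw [hC1] at h7
    exact h7.trans (mul_le_mul_of_nonneg_left (hlamk _ h2) (by positivity))
  have hcov := coverS b s t L S E _ hE (fun m => ∃ p : ℕ, p.Coprime (2 * b) ∧
      (b : ℝ) ^ (η * L) ≤ p ∧ (p : ℝ) ≤ (b : ℝ) ^ (κ * L) ∧ p ^ 2 ∣ pS b s t L S m) (by
    rintro m ⟨p, hp1, hp2, hp3, hp4⟩
    have hp0 : p ≠ 0 := by
      rintro rfl
      have : (0 : ℝ) < (b : ℝ) ^ (η * L) := by positivity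
      rw [Nat.cast_zero] at hp2
      linarith
    have hlow : 2 ^ Nat.log 2 p ≤ p := Nat.pow_log_le_self 2 hp0
    have hupp : p < 2 * 2 ^ Nat.log 2 p := by
      have := Nat.lt_pow_succ_log_self (b := 2) (by norm_num) p
      rwa [pow_succ'] at this
    obtain ⟨J, hJ⟩ : ∃ J, Nat.log b (2 ^ Nat.log 2 p) = J := ⟨_, rfl⟩
    have hJ1 : b ^ J ≤ 2 ^ Nat.log 2 p := by
      rw [← hJ]; exact Nat.pow_log_le_self b (by positivity)
    have hJ2 : 2 ^ Nat.log 2 p < b ^ (J + 1) := by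
      rw [← hJ]; exact Nat.lt_pow_succ_log_self (b := b) (by omega) _
    have hJup : (J : ℝ) ≤ κ * L := by
      have h1 : (b : ℝ) ^ (J : ℝ) ≤ (b : ℝ) ^ (κ * L) := by
        rw [Real.rpow_natCast]
        refine le_trans ?_ hp3
        exact_mod_cast hJ1.trans hlow
      exact (Real.rpow_le_rpow_left_iff hb1).1 h1
    have hJlow : η * L ≤ J + 2 := by
      have h1 : (b : ℝ) ^ (η * L) ≤ (b : ℝ) ^ ((J : ℝ) + 2) := by
        refine hp2.trans ?_
        have h2 : p ≤ b ^ (J + 2) := by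
          have e1 : b ^ (J + 2) = b * b ^ (J + 1) := by rw [pow_succ']
          rw [e1]
          have e2 : 2 * b ^ (J + 1) ≤ b * b ^ (J + 1) := Nat.mul_le_mul_right _ (by omega)
          omega
        have h3 : (b : ℝ) ^ ((J : ℝ) + 2) = (b : ℝ) ^ (J + 2) := by
          rw [← Real.rpow_natCast]
          push_cast
          rfl
        rw [h3]
        exact_mod_cast h2
      exact (Real.rpow_le_rpow_left_iff hb1).1 h1
    have hJpos : 2 ≤ J := by
      have : (2 : ℝ) ≤ J := by linarith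
      exact_mod_cast this
    have hJL : J < L := by
      have : (J : ℝ) < L := by
        calc (J : ℝ) ≤ κ * L := hJup
          _ < 1 * L := mul_lt_mul_of_pos_right hκ1 hL0
          _ = L := one_mul _
      exact_mod_cast this
    have hlog : Nat.log 2 p < b * L := by
      have h1 : (2 : ℕ) ^ Nat.log 2 p < 2 ^ (b * L) := by
        refine lt_of_lt_of_le hJ2 ?_
        calc b ^ (J + 1) ≤ b ^ L := Nat.pow_le_pow_right (by omega) (by omega)
          _ ≤ (2 ^ b) ^ L := Nat.pow_le_pow_left (Nat.lt_two_pow_self).le L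
          _ = 2 ^ (b * L) := by rw [pow_mul]
      exact (Nat.pow_lt_pow_iff_right (by norm_num)).1 h1
    refine ⟨Nat.log 2 p, ?_, p, hlow, hupp, hp1, hp4⟩
    rw [Finset.mem_filter, Finset.mem_range]
    refine ⟨hlog, J - 1, by omega, ?_, ?_, ?_, ?_⟩
    · have : ((J - 1 : ℕ) : ℝ) = J - 1 := by
        rw [Nat.cast_sub (by omega)]; push_cast; rfl
      rw [this]; linarith
    · rw [show J - 1 + 1 = J by omega]; exact hJ1
    · rw [show J - 1 + 2 = J + 1 by omega]; exact hJ2.le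
    · refine le_trans ?_ hp3
      exact_mod_cast hlow)
  refine le_trans (le_of_eq ?_) (hcov.trans ?_)
  · congr!
  have hEc : (E.card : ℝ) ≤ b * L := by
    have : E.card ≤ b * L := by
      refine (Finset.card_filter_le _ _).trans ?_
      rw [Finset.card_range]
    exact_mod_cast this
  have hr : ρ ^ L ≠ 0 := (pow_pos hρ0 L).ne'
  calc (E.card : ℝ) * (C1 * ((s : ℝ) * t) ^ L * T * ((ρ ^ L) ^ 2 * (a ^ 2)⁻¹)) ≤
      (b * L) * (C1 * ((s : ℝ) * t) ^ L * T * ((ρ ^ L) ^ 2 * (a ^ 2)⁻¹)) :=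
        mul_le_mul_of_nonneg_right hEc (by positivity)
    _ = ((s : ℝ) * t) ^ L * (C2 * (L * ρ ^ L)) := by
        rw [hTval, inv_pow ρ L, ← hC2]
        field_simp
    _ ≤ ((s : ℝ) * t) ^ L * (1 / (L : ℝ) ^ A) := by
        refine mul_le_mul_of_nonneg_left ?_ (by positivity)
        rw [le_div_iff₀ (by positivity)]
        have e1 : C2 * (L * ρ ^ L) * (L : ℝ) ^ A = C2 * ((L : ℝ) ^ (A + 1) * ρ ^ L) := by
          rw [pow_succ]; ring
        rw [e1]
        calc C2 * ((L : ℝ) ^ (A + 1) * ρ ^ L) ≤ C2 * C2⁻¹ :=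
              mul_le_mul_of_nonneg_left hL1.le hK0.le
          _ = 1 := mul_inv_cancel₀ hK0.ne'
    _ = ((s : ℝ) * t) ^ L / (L : ℝ) ^ A := by ring



end Pool.Agent.V7H46.PLF
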