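import Pool.Agent.V7H46.PLF.S1

/-!
# Level of distribution, uniformly in the additive constant
-/

set_option autoImplicit false

namespace Pool.Agent.V7H46.PLF

open Finset Filter Topology Pool.Agent.Helper112 Pool.Agent.W89.PW Pool.Agent.W261.PWBV
open Pool.Agent.H39R3.PB (ph pts apts)
open Pool.Agent.W139.PX (MajP bigW_of_majP m4_unif)

/-- level of distribution, `b ≥ 2` -/
theorem bvS {b s t : ℕ} (hb : 2 ≤ b) (hs : 1 ≤ s) (ht : 1 ≤ t) (hP : PtW b s t) {κ : ℝ} (hκ0 : 0 < κ)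
    (hκ1 : κ < 1) (hB : BigW b s t κ) (A : ℕ) : ∀ᶠ L : ℕ in atTop, ∀ S : ℕ,
    ∑ q ∈ (Icc 1 ⌊(b : ℝ) ^ (κ * L)⌋₊).filter (fun q => q.Coprime (2 * b)),
      (q.divisors.card : ℝ) ^ 2 * |cS b s t L S q - ((s : ℝ) * t) ^ L / q| ≤ ((s : ℝ) * t) ^ L / (L : ℝ) ^ A := by
  have hb0 : 0 < b := by omega
  have hbr : (0 : ℝ) < b := by exact_mod_cast hb0
  have hb1 : (1 : ℝ) ≤ b := by exact_mod_cast hb0
  filter_upwards [U_sum b s t (by omega) hP κ hκ0 hκ1 hB (A + 5),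
    eventually_ge_atTop ((b + 1) ^ 4)] with L hL hLb S
  set D := ⌊(b : ℝ) ^ (κ * L)⌋₊ with hD
  have hLb' : ((b : ℝ) + 1) ^ 4 ≤ L := by exact_mod_cast hLb
  have hL1 : (1 : ℝ) ≤ L := by
    have : (1 : ℝ) ≤ ((b : ℝ) + 1) ^ 4 := one_le_pow₀ (by linarith)
    linarith
  have hL0 : (0 : ℝ) < L := by linarith
  have h1 : ∑ q ∈ (Icc 1 D).filter (fun q => q.Coprime (2 * b)),
      (q.divisors.card : ℝ) ^ 2 * |cS b s t L S q - ((s : ℝ) * t) ^ L / q| ≤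
      ∑ q ∈ (Icc 1 D).filter (fun q => q.Coprime (2 * b)),
      (q.divisors.card : ℝ) ^ 2 *
        (((s : ℝ) * t) ^ L / q * ∑ d ∈ q.divisors.filter (fun d => 1 < d), U b s t L d) := by
    refine sum_le_sum fun q hq => ?_
    rw [mem_filter] at hq
    exact mul_le_mul_of_nonneg_left (cS_bound hs ht b L S q hq.2) (by positivity)
  have h2 := h1.trans (double b s t L D)
  have h3 := Pool.Agent.H316R2.tau_sq_sum_le D
  have hlog : 1 + Real.log D ≤ (b + 1) * L := by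
    rcases Nat.eq_zero_or_pos D with h0 | h0
    · rw [h0]
      simp only [Nat.cast_zero, Real.log_zero, add_zero]
      nlinarith
    · have hDle : (D : ℝ) ≤ (b : ℝ) ^ (κ * L) := Nat.floor_le (by positivity)
      have hDle2 : (D : ℝ) ≤ (b : ℝ) ^ ((1 : ℝ) * L) := by
        refine hDle.trans (Real.rpow_le_rpow_of_exponent_le hb1 ?_)
        exact mul_le_mul_of_nonneg_right hκ1.le hL0.le
      have h4 : Real.log D ≤ (1 * L) * Real.log b := by
        rw [← Real.log_rpow hbr]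
        exact Real.log_le_log (by exact_mod_cast h0) hDle2
      have h5 : Real.log b ≤ b - 1 := Real.log_le_sub_one_of_pos hbr
      have h6 : (1 * L) * Real.log b ≤ (1 * L) * ((b : ℝ) - 1) :=
        mul_le_mul_of_nonneg_left h5 (by positivity)
      nlinarith [mul_pos hbr hL0]
  have hlog0 : 0 ≤ 1 + Real.log D := by
    have := Real.log_natCast_nonneg D
    linarith
  have h4 : ∑ e ∈ Icc 1 D, (e.divisors.card : ℝ) ^ 2 / e ≤ ((b : ℝ) + 1) ^ 4 * (L : ℝ) ^ 4 := by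
    refine h3.trans ?_
    calc (1 + Real.log D) ^ 4 ≤ (((b : ℝ) + 1) * (L : ℝ)) ^ 4 := by gcongr
      _ = ((b : ℝ) + 1) ^ 4 * (L : ℝ) ^ 4 := by ring
  refine h2.trans ?_
  have hS0 : 0 ≤ ∑ e ∈ Icc 1 D, (e.divisors.card : ℝ) ^ 2 / e :=
    sum_nonneg fun _ _ => by positivity
  calc ((s : ℝ) * t) ^ L * ((∑ d ∈ (Icc 2 D).filter (fun q => q.Coprime (2 * b)),
      (d.divisors.card : ℝ) ^ 2 * U b s t L d / d) *
        ∑ e ∈ Icc 1 D, (e.divisors.card : ℝ) ^ 2 / e)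
      ≤ ((s : ℝ) * t) ^ L * ((1 / (L : ℝ) ^ (A + 5)) * (((b : ℝ) + 1) ^ 4 * (L : ℝ) ^ 4)) :=
        mul_le_mul_of_nonneg_left (mul_le_mul hL h4 hS0 (by positivity)) (by positivity)
    _ ≤ ((s : ℝ) * t) ^ L / (L : ℝ) ^ A := by
        generalize ((b : ℝ) + 1) ^ 4 = B at hLb'
        have h5 : (1 / (L : ℝ) ^ (A + 5)) * (B * (L : ℝ) ^ 4) = B / L * (1 / (L : ℝ) ^ A) := by
          have hy : ((L : ℝ) ^ A) ≠ 0 := by positivity
          have hx : (L : ℝ) ≠ 0 := hL0.ne'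
          rw [pow_add]
          generalize (L : ℝ) ^ A = y at hy
          generalize (L : ℝ) = x at hx
          field_simp
        rw [h5]
        have h6 : B / (L : ℝ) ≤ 1 := by rw [div_le_one hL0]; exact hLb'
        have h7 : (0 : ℝ) < 1 / (L : ℝ) ^ A := by positivity
        calc ((s : ℝ) * t) ^ L * (B / L * (1 / (L : ℝ) ^ A))
            ≤ ((s : ℝ) * t) ^ L * (1 * (1 / (L : ℝ) ^ A)) := by gcongr
          _ = _ := by ring


/-- level of distribution `b ^ (κ L)` for the palindromes with free inner digits, uniformly in the additive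
constant -/
theorem levS {b : ℕ} (hb : 2 ≤ b) {H CM : ℝ} (hMaj : MajP b b 1 H CM) (hH0 : 0 < H)
    (hHb : 1 ≤ b * H) (hCM : 0 < CM) {κ : ℝ} (hκ0 : 0 < κ) (hκH : (b : ℝ) ^ κ * H < 1) (A : ℕ) :
    ∀ᶠ L : ℕ in atTop, ∀ S : ℕ,
    ∑ q ∈ (Icc 1 ⌊(b : ℝ) ^ (κ * L)⌋₊).filter (fun q => q.Coprime (2 * b)),
      |cS b b 1 L S q - (b : ℝ) ^ L / q| ≤ (b : ℝ) ^ L / (L : ℝ) ^ A := by
  have hb1 : (1 : ℝ) < b := by exact_mod_cast (by omega : 1 < b)
  have hκ1 : κ < 1 := by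
    by_contra hcon
    push Not at hcon
    have h3 : (b : ℝ) ≤ (b : ℝ) ^ κ := by
      calc (b : ℝ) = (b : ℝ) ^ (1 : ℝ) := (Real.rpow_one _).symm
        _ ≤ _ := Real.rpow_le_rpow_of_exponent_le hb1.le hcon
    have h4 : (b : ℝ) * H ≤ (b : ℝ) ^ κ * H := mul_le_mul_of_nonneg_right h3 hH0.le
    linarith
  have hPt : PtW b b 1 := Pool.Agent.W571.PW.Pt.main b b 1 hb hb le_rfl rfl
  have hBig : BigW b b 1 κ := bigW_of_majP hb (by omega) le_rfl rfl (m4_unif hb) hMaj hH0 hHb hCM hκ0 hκH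
  filter_upwards [bvS hb (by omega) le_rfl hPt hκ0 hκ1 hBig A] with L hL S
  have h1 := hL S
  simp only [Nat.cast_one, mul_one] at h1
  refine le_trans (sum_le_sum fun q hq => ?_) h1
  rw [mem_filter, mem_Icc] at hq
  have h2 : (1 : ℝ) ≤ (q.divisors.card : ℝ) ^ 2 := by
    have h3 : 1 ≤ q.divisors.card := Finset.card_pos.2 ⟨1, Nat.one_mem_divisors.2 (by omega)⟩
    have h4 : (1 : ℝ) ≤ (q.divisors.card : ℝ) := by exact_mod_cast h3
    exact one_le_pow₀ h4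
  exact le_mul_of_one_le_left (abs_nonneg _) h2

open Classical in
/-- palindromes divisible by large squares, uniformly in the additive constant -/
theorem sqS {b : ℕ} (hb : 2 ≤ b) {H CM : ℝ} (hMaj : MajP b b 1 H CM) (hH0 : 0 < H)
    (hHb : 1 ≤ b * H) (hCM : 0 < CM) {κ : ℝ} (hκ0 : 0 < κ) (hκH : (b : ℝ) ^ κ * H < 1)
    {η : ℝ} (hη : 0 < η) : ∀ᶠ L : ℕ in atTop, ∀ S : ℕ,
    (((univ : Finset (Fin L → Fin b × Fin 1)).filter (fun m => ∃ p : ℕ, p.Coprime (2 * b) ∧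
      (b : ℝ) ^ (η * L) ≤ p ∧ (p : ℝ) ≤ (b : ℝ) ^ (κ * L) ∧ p ^ 2 ∣ pS b b 1 L S m)).card : ℝ)
      ≤ (b : ℝ) ^ L / L := by
  filter_upwards [sqS_of_majP hMaj hH0 hHb hCM hb (by omega) le_rfl rfl (m4_unif hb) hκ0 hκH η hη 1]
    with L hL S
  have h1 := hL S
  rw [pow_one] at h1
  simp only [Nat.cast_one, mul_one] at h1
  convert h1

end Pool.Agent.V7H46.PLF
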