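import Pool.Agent.V7H46.PLF.S1

/-!
# Palindromes divisible by a high power of a prime divisor of `2 b`
-/

set_option autoImplicit false

namespace Pool.Agent.V7H46.PLF

open Finset Filter Topology Pool.Agent.Helper112
open Pool.Agent.H39R3.PB (ph ph_nonneg ph_le_one ph_add_int)
open Pool.Agent.H39R3.PS (EM)
open Pool.Agent.W89.PW
open Pool.Agent.W261.PWBV (ps_nonneg Fw_nonneg)
open Pool.Agent.W139.PX (ph_one')

/-- the number of `a < q` with `q ∣ M a` is at most `M` -/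
lemma card_dvd_mul_le {M q : ℕ} (hM : 0 < M) :
    ((range q).filter (fun a => q ∣ M * a)).card ≤ M := by
  calc ((range q).filter (fun a => q ∣ M * a)).card ≤ (range M).card := by
        apply card_le_card_of_injOn (fun a => M * a / q)
        · intro a ha
          rw [mem_coe, mem_filter, mem_range] at ha
          rw [mem_coe, mem_range]
          exact Nat.div_lt_of_lt_mul (by rw [mul_comm q M]; exact Nat.mul_lt_mul_of_pos_left ha.1 hM)
        · intro a ha a' ha' h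
          rw [mem_coe, mem_filter, mem_range] at ha ha'
          simp only at h
          have h1 := Nat.div_mul_cancel ha.2
          have h2 := Nat.div_mul_cancel ha'.2
          rw [h, h2] at h1
          exact (Nat.eq_of_mul_eq_mul_left hM h1).symm
    _ = M := card_range M

lemma ph_eq_zero {b : ℕ} {x : ℝ} (h1 : ∃ k : ℤ, (b : ℝ) * x = k) (h2 : ¬ ∃ k : ℤ, x = k) :
    ph b x = 0 := by
  unfold ph
  have h3 : ee x ≠ 1 := fun h => h2 (ls_ee_eq_one h)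
  have h4 : ∑ m ∈ range b, ee ((m : ℝ) * x) = 0 := by
    have h5 : ∀ m ∈ range b, ee ((m : ℝ) * x) = ee x ^ m := fun m _ => ls_ee_nat_mul m x
    rw [sum_congr rfl h5, geom_sum_eq h3]
    have h6 : ee x ^ b = 1 := by
      rw [← ls_ee_nat_mul]
      obtain ⟨k, hk⟩ := h1
      rw [hk, ls_ee_int]
    rw [h6]
    simp
  rw [h4]
  simp

lemma norm_one_add_lt {z : ℂ} (h1 : ‖z‖ = 1) (h2 : z ≠ 1) : ‖1 + z‖ < 2 := by
  have h3 : z.re * z.re + z.im * z.im = 1 := by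
    have := Complex.normSq_eq_norm_sq z
    rw [h1, Complex.normSq_apply] at this
    linarith
  have h4 : z.re < 1 := by
    by_contra hcon
    push Not at hcon
    have h5 : z.re = 1 := by nlinarith [sq_nonneg z.im]
    have h6 : z.im = 0 := by
      rw [h5] at h3
      have : z.im * z.im = 0 := by linarith
      exact mul_self_eq_zero.1 this
    exact h2 (Complex.ext h5 h6)
  have h7 : ‖1 + z‖ ^ 2 < 2 ^ 2 := by
    rw [← Complex.normSq_eq_norm_sq, Complex.normSq_apply]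
    simp only [Complex.add_re, Complex.one_re, Complex.add_im, Complex.one_im, zero_add]
    nlinarith
  exact lt_of_pow_lt_pow_left₀ 2 (by norm_num) h7

lemma ph_lt_one {b : ℕ} (hb : 2 ≤ b) {x : ℝ} (h2 : ¬ ∃ k : ℤ, x = k) : ph b x < 1 := by
  unfold ph
  have h3 : ee x ≠ 1 := fun h => h2 (ls_ee_eq_one h)
  have hb0 : (0 : ℝ) < b := by exact_mod_cast (by omega : 0 < b)
  rw [div_lt_one hb0]
  have h4 : ∑ m ∈ range b, ee ((m : ℝ) * x) = (1 + ee x) + ∑ m ∈ Ico (2:ℕ) b, ee ((m : ℝ) * x) := by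
    rw [← sum_range_add_sum_Ico _ hb]
    congr 1
    rw [sum_range_succ, sum_range_one]
    simp [ls_ee_zero]
  have h5 : ‖∑ m ∈ Ico (2:ℕ) b, ee ((m : ℝ) * x)‖ ≤ (b : ℝ) - 2 := by
    calc ‖∑ m ∈ Ico (2:ℕ) b, ee ((m : ℝ) * x)‖ ≤ ∑ m ∈ Ico (2:ℕ) b, ‖ee ((m : ℝ) * x)‖ := norm_sum_le _ _
      _ = (b : ℝ) - 2 := by
        simp only [ls_norm_ee, sum_const, Nat.card_Ico, nsmul_eq_mul, mul_one]
        rw [Nat.cast_sub hb]
        norm_num
  have h6 := norm_add_le (1 + ee x) (∑ m ∈ Ico (2:ℕ) b, ee ((m : ℝ) * x))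
  have h7 := norm_one_add_lt (ls_norm_ee x) h3
  rw [h4]
  linarith

lemma ps_one (b : ℕ) (x : ℝ) : ps b 1 x = ph b x := by
  unfold ps
  rw [ph_one', mul_one]

lemma Fw_le_one (b L : ℕ) (α : ℝ) : Fw b b 1 L L α ≤ 1 :=
  prod_le_one (fun _ _ => ps_nonneg _ _ _) fun _ _ => by rw [ps_one]; exact ph_le_one _ _

/-- vanishing at fractions whose denominator is a power of a prime divisor of `b` -/
lemma Fw_zero {b p j L a : ℕ} (hb : 2 ≤ b) (hp : p.Prime) (hpb : p ∣ b) (hj : j ≤ L)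
    (ha : ¬ p ^ j ∣ b * a) : Fw b b 1 L L ((a : ℝ) / ((p ^ j : ℕ) : ℝ)) = 0 := by
  classical
  have hq : ((p ^ j : ℕ) : ℝ) ≠ 0 := by exact_mod_cast (pow_pos hp.pos j).ne'
  have hex : ∃ k, p ^ j ∣ b ^ k * a := ⟨j, Dvd.dvd.mul_right (pow_dvd_pow_of_dvd hpb j) a⟩
  obtain ⟨k, hk1, hkj, hkmin⟩ : ∃ k, p ^ j ∣ b ^ k * a ∧ k ≤ j ∧ ∀ i < k, ¬ p ^ j ∣ b ^ i * a :=
    ⟨Nat.find hex, Nat.find_spec hex,
      Nat.find_min' hex (Dvd.dvd.mul_right (pow_dvd_pow_of_dvd hpb j) a), fun i hi => Nat.find_min hex hi⟩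
  have hk2 : 2 ≤ k := by
    by_contra hcon
    have : k = 0 ∨ k = 1 := by omega
    rcases this with h | h
    · rw [h, pow_zero, one_mul] at hk1
      exact ha (hk1.mul_left b)
    · rw [h, pow_one] at hk1
      exact ha hk1
  obtain ⟨i, rfl⟩ : ∃ i, k = i + 1 := ⟨k - 1, by omega⟩
  have hk3 := hkmin i (by omega)
  unfold Fw
  apply prod_eq_zero (i := L - i) (mem_range.2 (by omega))
  rw [ps_one]
  have hfr : fr b L (L - i) = b ^ (2 * L - i + 2) + b ^ i := by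
    unfold fr
    rw [show L + (L - i) + 2 = 2 * L - i + 2 by omega, show L - (L - i) = i by omega]
  obtain ⟨u, hu⟩ : p ^ j ∣ b ^ (2 * L - i + 2) * a :=
    dvd_mul_of_dvd_left ((pow_dvd_pow_of_dvd hpb j).trans (pow_dvd_pow b (by omega))) a
  obtain ⟨v, hv⟩ := hk1
  have hu' : ((b : ℝ) ^ (2 * L - i + 2)) * a = ((p ^ j : ℕ) : ℝ) * u := by exact_mod_cast hu
  have hv' : ((b : ℝ) ^ (i + 1)) * a = ((p ^ j : ℕ) : ℝ) * v := by exact_mod_cast hv
  have e : ((fr b L (L - i) : ℕ) : ℝ) * ((a : ℝ) / ((p ^ j : ℕ) : ℝ)) =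
      ((b : ℝ) ^ i * a) / ((p ^ j : ℕ) : ℝ) + ((u : ℤ) : ℝ) := by
    rw [hfr]
    push_cast at hu' ⊢
    push_cast at hq
    field_simp
    linear_combination hu'
  rw [e, ph_add_int]
  apply ph_eq_zero
  · refine ⟨v, ?_⟩
    rw [← mul_div_assoc, div_eq_iff hq]
    push_cast at hv' ⊢
    rw [pow_succ] at hv'
    linear_combination hv'
  · rintro ⟨w, hw⟩
    apply hk3
    rw [div_eq_iff hq] at hw
    have h1 : ((b ^ i * a : ℕ) : ℤ) = w * ((p ^ j : ℕ) : ℤ) := by exact_mod_cast hw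
    have h2 : ((p ^ j : ℕ) : ℤ) ∣ ((b ^ i * a : ℕ) : ℤ) := ⟨w, by rw [h1, mul_comm]⟩
    exact Int.natCast_dvd_natCast.1 h2

lemma fin_lt_one (s : Finset ℕ) (f : ℕ → ℝ) (h : ∀ i ∈ s, f i < 1) :
    ∃ ρ : ℝ, 0 ≤ ρ ∧ ρ < 1 ∧ ∀ i ∈ s, f i ≤ ρ := by
  classical
  induction s using Finset.induction_on with
  | empty => exact ⟨0, le_rfl, one_pos, by simp⟩
  | insert a s ha ih =>
    obtain ⟨ρ, h1, h2, h3⟩ := ih fun i hi => h i (mem_insert_of_mem hi)
    refine ⟨max ρ (f a), le_max_of_le_left h1, max_lt h2 (h a (mem_insert_self _ _)), fun i hi => ?_⟩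
    rcases mem_insert.1 hi with rfl | hi
    · exact le_max_right _ _
    · exact le_max_of_le_left (h3 i hi)

/-- decay at dyadic fractions, `b` odd -/
lemma Fw_small {b : ℕ} (hb : 2 ≤ b) (hodd : Odd b) (j : ℕ) : ∃ ρ : ℝ, 0 ≤ ρ ∧ ρ < 1 ∧ ∀ L a : ℕ,
    ¬ 2 ^ j ∣ 2 * a → Fw b b 1 L L ((a : ℝ) / ((2 ^ j : ℕ) : ℝ)) ≤ ρ ^ L := by
  have hq0 : 0 < 2 ^ j := by positivity
  have hq : ((2 ^ j : ℕ) : ℝ) ≠ 0 := by exact_mod_cast hq0.ne'
  obtain ⟨ρ, h1, h2, h3⟩ := fin_lt_one ((range (2 ^ j)).filter (fun r => r ≠ 0))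
    (fun r => ph b ((r : ℝ) / ((2 ^ j : ℕ) : ℝ))) (by
      intro r hr
      rw [mem_filter, mem_range] at hr
      apply ph_lt_one hb
      rintro ⟨w, hw⟩
      rw [div_eq_iff hq] at hw
      have h4 : (r : ℤ) = w * ((2 ^ j : ℕ) : ℤ) := by exact_mod_cast hw
      have h5 : ((2 ^ j : ℕ) : ℤ) ∣ (r : ℤ) := ⟨w, by rw [h4, mul_comm]⟩
      have h6 := Nat.le_of_dvd (Nat.pos_of_ne_zero hr.2) (Int.natCast_dvd_natCast.1 h5)
      omega)
  refine ⟨ρ, h1, h2, fun L a ha => ?_⟩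
  have h4 : ∀ c ∈ range L, ps b 1 (fr b L c * ((a : ℝ) / ((2 ^ j : ℕ) : ℝ))) ≤ ρ := by
    intro c _
    rw [ps_one]
    have hnd : ¬ 2 ^ j ∣ fr b L c * a := by
      intro h
      apply ha
      obtain ⟨w, hw⟩ : ∃ w, b ^ (2 * c + 2) + 1 = 2 * (2 * w + 1) := by
        obtain ⟨v, hv⟩ := hodd.pow (n := c + 1)
        refine ⟨v ^ 2 + v, ?_⟩
        rw [show 2 * c + 2 = (c + 1) * 2 by ring, pow_mul, hv]
        ring
      have hfr : fr b L c = b ^ (L - c) * (2 * (2 * w + 1)) := by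
        rw [← hw]
        unfold fr
        rw [mul_add, mul_one, ← pow_add]
        congr 2
        have := mem_range.1 ‹_›
        omega
      rw [hfr] at h
      have hc1 : Nat.Coprime (2 ^ j) (b ^ (L - c)) :=
        Nat.Coprime.pow _ _ ((Nat.coprime_two_left).2 hodd)
      have hc2 : Nat.Coprime (2 ^ j) (2 * w + 1) :=
        Nat.Coprime.pow_left _ ((Nat.coprime_two_left).2 ⟨w, rfl⟩)
      have h5 : 2 ^ j ∣ b ^ (L - c) * ((2 * w + 1) * (2 * a)) := by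
        have e : b ^ (L - c) * (2 * (2 * w + 1)) * a = b ^ (L - c) * ((2 * w + 1) * (2 * a)) := by ring
        rwa [e] at h
      exact hc2.dvd_of_dvd_mul_left (hc1.dvd_of_dvd_mul_left h5)
    have e : ((fr b L c : ℕ) : ℝ) * ((a : ℝ) / ((2 ^ j : ℕ) : ℝ)) =
        (((fr b L c * a) % 2 ^ j : ℕ) : ℝ) / ((2 ^ j : ℕ) : ℝ) + (((fr b L c * a / 2 ^ j : ℕ) : ℤ) : ℝ) := by
      have h6 : ((fr b L c * a : ℕ) : ℝ) = ((2 ^ j : ℕ) : ℝ) * ((fr b L c * a / 2 ^ j : ℕ) : ℝ) +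
          (((fr b L c * a) % 2 ^ j : ℕ) : ℝ) := by exact_mod_cast (Nat.div_add_mod _ _).symm
      rw [Int.cast_natCast, ← mul_div_assoc, div_add' _ _ _ hq, ← Nat.cast_mul, h6]
      ring
    rw [e, ph_add_int]
    apply h3
    rw [mem_filter, mem_range]
    exact ⟨Nat.mod_lt _ hq0, fun h => hnd (Nat.dvd_of_mod_eq_zero h)⟩
  unfold Fw
  calc ∏ c ∈ range L, ps b 1 (fr b L c * ((a : ℝ) / ((2 ^ j : ℕ) : ℝ))) ≤ ∏ c ∈ range L, ρ :=
        prod_le_prod (fun _ _ => ps_nonneg _ _ _) h4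
    _ = ρ ^ L := by rw [prod_const, card_range]

/-- the mean over the fractions with a fixed denominator -/
lemma EM_le_of {b L q M : ℕ} (hM : 0 < M) (hq : 0 < q) {δ : ℝ} (hδ : 0 ≤ δ)
    (h : ∀ a, ¬ q ∣ M * a → Fw b b 1 L L ((a : ℝ) / (q : ℝ)) ≤ δ) :
    EM q (Fw b b 1 L L) ≤ M / q + δ := by
  have hqr : (0 : ℝ) < q := by exact_mod_cast hq
  unfold EM
  rw [div_le_iff₀ hqr]
  calc ∑ a ∈ range q, Fw b b 1 L L ((a : ℝ) / (q : ℝ)) ≤
        ∑ a ∈ range q, ((if q ∣ M * a then (1 : ℝ) else 0) + δ) := by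
        apply sum_le_sum
        intro a _
        split_ifs with h1
        · have := Fw_le_one b L ((a : ℝ) / (q : ℝ))
          linarith
        · rw [zero_add]
          exact h a h1
    _ = (((range q).filter (fun a => q ∣ M * a)).card : ℝ) + q * δ := by
        rw [sum_add_distrib, ← sum_filter, sum_const, sum_const, card_range, nsmul_eq_mul, nsmul_eq_mul, mul_one]
    _ ≤ M + q * δ := by
        have : (((range q).filter (fun a => q ∣ M * a)).card : ℝ) ≤ M := by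
          exact_mod_cast card_dvd_mul_le (q := q) hM
        linarith
    _ = (M / q + δ) * q := by field_simp

/-- palindromes divisible by a high power of a prime divisor of `2 b` are rare -/
lemma small_p {b : ℕ} (hb : 2 ≤ b) {p : ℕ} (hp : p.Prime) (hpb : p ∣ 2 * b) (ε : ℝ) (hε : 0 < ε) :
    ∃ j : ℕ, ∀ᶠ L : ℕ in atTop, ∀ S : ℕ, cS b b 1 L S (p ^ j) ≤ ε * (b : ℝ) ^ L := by
  have hb0 : (0 : ℝ) < b := by exact_mod_cast (by omega : 0 < b)
  have hp2 : (2 : ℝ) ≤ p := by exact_mod_cast hp.two_le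
  -- the choice of the exponent
  obtain ⟨j, hj⟩ : ∃ j : ℕ, 2 * (b : ℝ) / ε < 2 ^ j := pow_unbounded_of_one_lt _ (by norm_num)
  have hj2 : (2 : ℝ) ^ j ≤ ((p ^ j : ℕ) : ℝ) := by
    push_cast
    exact pow_le_pow_left₀ (by norm_num) hp2 j
  have hpj : (0 : ℝ) < ((p ^ j : ℕ) : ℝ) := by exact_mod_cast pow_pos hp.pos j
  have hj3 : (b : ℝ) / ((p ^ j : ℕ) : ℝ) ≤ ε / 2 := by
    rw [div_lt_iff₀ hε] at hj
    rw [div_le_iff₀ hpj]
    nlinarith
  refine ⟨j, ?_⟩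
  have hcs : ∀ L S : ℕ, cS b b 1 L S (p ^ j) ≤ (b : ℝ) ^ L * EM (p ^ j) (Fw b b 1 L L) := by
    intro L S
    have := cS_le (b := b) (s := b) (t := 1) (by omega) one_pos L S (p ^ j) (pow_pos hp.pos j)
    simpa using this
  by_cases hpb' : p ∣ b
  · filter_upwards [eventually_ge_atTop j] with L hL S
    have h1 : EM (p ^ j) (Fw b b 1 L L) ≤ (b : ℝ) / ((p ^ j : ℕ) : ℝ) + 0 :=
      EM_le_of (by omega) (pow_pos hp.pos j) le_rfl fun a ha => (Fw_zero hb hp hpb' hL ha).le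
    calc cS b b 1 L S (p ^ j) ≤ (b : ℝ) ^ L * EM (p ^ j) (Fw b b 1 L L) := hcs L S
      _ ≤ (b : ℝ) ^ L * ε := by
          apply mul_le_mul_of_nonneg_left _ (by positivity)
          linarith
      _ = ε * (b : ℝ) ^ L := mul_comm _ _
  · have hp2' : p = 2 := by
      rcases (Nat.Prime.dvd_mul hp).1 hpb with h | h
      · exact (Nat.prime_dvd_prime_iff_eq hp Nat.prime_two).1 h
      · exact absurd h hpb'
    subst hp2'
    have hodd : Odd b := by
      rw [← Nat.not_even_iff_odd, even_iff_two_dvd]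
      exact hpb'
    obtain ⟨ρ, h1, h2, h3⟩ := Fw_small hb hodd j
    have hlim := tendsto_pow_atTop_nhds_zero_of_lt_one h1 h2
    filter_upwards [hlim.eventually (gt_mem_nhds (by linarith : (0 : ℝ) < ε / 2))] with L hL S
    have h4 : EM (2 ^ j) (Fw b b 1 L L) ≤ ((2 : ℕ) : ℝ) / ((2 ^ j : ℕ) : ℝ) + ρ ^ L :=
      EM_le_of (by omega) (pow_pos hp.pos j) (by positivity) fun a ha => h3 L a ha
    have h5 : ((2 : ℕ) : ℝ) / ((2 ^ j : ℕ) : ℝ) ≤ (b : ℝ) / ((2 ^ j : ℕ) : ℝ) := by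
      apply div_le_div_of_nonneg_right _ hpj.le
      exact_mod_cast hb
    calc cS b b 1 L S (2 ^ j) ≤ (b : ℝ) ^ L * EM (2 ^ j) (Fw b b 1 L L) := hcs L S
      _ ≤ (b : ℝ) ^ L * ε := by
          apply mul_le_mul_of_nonneg_left _ (by positivity)
          linarith
      _ = ε * (b : ℝ) ^ L := mul_comm _ _

/-- all prime divisors of `2 b` together -/
theorem small_all {b : ℕ} (hb : 2 ≤ b) (ε : ℝ) (hε : 0 < ε) :
    ∃ j : ℕ, ∀ᶠ L : ℕ in atTop, ∀ S : ℕ,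
      (((univ : Finset (Fin L → Fin b × Fin 1)).filter
        (fun m => ∃ p ∈ (2 * b).primeFactors, p ^ j ∣ pS b b 1 L S m)).card : ℝ) ≤ ε * (b : ℝ) ^ L := by
  classical
  set P := (2 * b).primeFactors with hP
  set K : ℝ := (P.card : ℝ) + 1 with hK
  have hK0 : 0 < K := by positivity
  have h1 : ∀ p : ℕ, ∃ j : ℕ, p ∈ P → ∀ᶠ L : ℕ in atTop, ∀ S : ℕ,
      cS b b 1 L S (p ^ j) ≤ (ε / K) * (b : ℝ) ^ L := by
    intro p
    by_cases hp : p ∈ P
    · obtain ⟨j, hj⟩ := small_p hb (Nat.prime_of_mem_primeFactors hp) (Nat.dvd_of_mem_primeFactors hp)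
        (ε / K) (by positivity)
      exact ⟨j, fun _ => hj⟩
    · exact ⟨0, fun h => absurd h hp⟩
  choose j hj using h1
  refine ⟨P.sup j, ?_⟩
  have h2 : ∀ᶠ L : ℕ in atTop, ∀ p ∈ P, ∀ S : ℕ, cS b b 1 L S (p ^ j p) ≤ (ε / K) * (b : ℝ) ^ L := by
    rw [Filter.eventually_all_finset]
    exact fun p hp => hj p hp
  filter_upwards [h2] with L hL S
  have hsub : (univ : Finset (Fin L → Fin b × Fin 1)).filter
      (fun m => ∃ p ∈ P, p ^ P.sup j ∣ pS b b 1 L S m) ⊆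
      P.biUnion fun p => (univ : Finset (Fin L → Fin b × Fin 1)).filter
        (fun m => p ^ j p ∣ pS b b 1 L S m) := by
    intro m hm
    rw [mem_filter] at hm
    obtain ⟨_, p, hp, hd⟩ := hm
    rw [mem_biUnion]
    refine ⟨p, hp, ?_⟩
    rw [mem_filter]
    exact ⟨mem_univ _, (pow_dvd_pow p (Finset.le_sup hp)).trans hd⟩
  have h3 : (((univ : Finset (Fin L → Fin b × Fin 1)).filter
      (fun m => ∃ p ∈ P, p ^ P.sup j ∣ pS b b 1 L S m)).card : ℝ) ≤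
      ∑ p ∈ P, cS b b 1 L S (p ^ j p) := by
    have h4 := (card_le_card hsub).trans card_biUnion_le
    have h5 : (((univ : Finset (Fin L → Fin b × Fin 1)).filter
      (fun m => ∃ p ∈ P, p ^ P.sup j ∣ pS b b 1 L S m)).card : ℝ) ≤
      ((∑ p ∈ P, ((univ : Finset (Fin L → Fin b × Fin 1)).filter
        (fun m => p ^ j p ∣ pS b b 1 L S m)).card : ℕ) : ℝ) := by exact_mod_cast h4
    refine h5.trans (le_of_eq ?_)
    push_cast
    rfl
  have hbL : (0 : ℝ) ≤ (b : ℝ) ^ L := by positivity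
  calc _ ≤ ∑ p ∈ P, cS b b 1 L S (p ^ j p) := h3
    _ ≤ ∑ p ∈ P, (ε / K) * (b : ℝ) ^ L := sum_le_sum fun p hp => hL p hp S
    _ = (P.card / K) * (ε * (b : ℝ) ^ L) := by
        rw [sum_const, nsmul_eq_mul]
        ring
    _ ≤ 1 * (ε * (b : ℝ) ^ L) := by
        apply mul_le_mul_of_nonneg_right _ (by positivity)
        rw [div_le_one hK0]
        linarith
    _ = ε * (b : ℝ) ^ L := one_mul _

end Pool.Agent.V7H46.PLF
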