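import Pool.Agent.V7H46.PLF.S2
import Pool.Agent.V7H46.PLF.S3
import Pool.Agent.V7H46.PLF.M1
import Mathlib.NumberTheory.Chebyshev

/-!
# The number of palindromes without a large prime factor
-/

set_option autoImplicit false

namespace Pool.Agent.V7H46.PLF

open Finset Filter Topology ArithmeticFunction
open Pool.Agent.W139.PX (MajP)

/-- first theorem of Mertens, upper bound with prime powers -/
lemma mert (N : ℕ) (hN : 1 ≤ N) : ∑ d ∈ Icc 1 N, vonMangoldt d / (d : ℝ) ≤ Real.log N + 6 := by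
  have hN0 : (0 : ℝ) < N := by exact_mod_cast hN
  have h1 : ∑ n ∈ Icc 1 N, Real.log n = ∑ d ∈ Icc 1 N, vonMangoldt d * ((N / d : ℕ) : ℝ) := by
    calc ∑ n ∈ Icc 1 N, Real.log n = ∑ n ∈ Icc 1 N, ∑ d ∈ Icc 1 N, (if d ∣ n then vonMangoldt d else 0) := by
          refine sum_congr rfl fun n hn => ?_
          rw [mem_Icc] at hn
          rw [← vonMangoldt_sum, ← sum_filter]
          congr 1
          ext d
          rw [Nat.mem_divisors, mem_filter, mem_Icc]
          constructor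
          · rintro ⟨h1, h2⟩
            exact ⟨⟨Nat.pos_of_dvd_of_pos h1 (by omega), (Nat.le_of_dvd (by omega) h1).trans hn.2⟩, h1⟩
          · rintro ⟨_, h1⟩
            exact ⟨h1, by omega⟩
      _ = ∑ d ∈ Icc 1 N, ∑ n ∈ Icc 1 N, (if d ∣ n then vonMangoldt d else 0) := sum_comm
      _ = _ := by
          refine sum_congr rfl fun d _ => ?_
          rw [← sum_filter, sum_const, nsmul_eq_mul, mul_comm]
          congr 2
          have h0 := Nat.Ioc_filter_dvd_card_eq_div N d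
          have e : Ioc 0 N = Icc 1 N := by
            ext x
            rw [mem_Ioc, mem_Icc]
            omega
          rw [e] at h0
          exact h0
  have h2 : ∑ n ∈ Icc 1 N, Real.log n ≤ N * Real.log N := by
    calc ∑ n ∈ Icc 1 N, Real.log n ≤ ∑ n ∈ Icc 1 N, Real.log N := by
          refine sum_le_sum fun n hn => ?_
          rw [mem_Icc] at hn
          exact Real.log_le_log (by exact_mod_cast hn.1) (by exact_mod_cast hn.2)
      _ = N * Real.log N := by
          rw [sum_const, Nat.card_Icc, nsmul_eq_mul]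
          simp
  have h3 : ∑ d ∈ Icc 1 N, vonMangoldt d ≤ 6 * N := by
    have h4 := Chebyshev.psi_le_const_mul_self (x := (N : ℝ)) hN0.le
    rw [Chebyshev.psi_eq_sum_Icc, Nat.floor_natCast] at h4
    have h5 : Real.log 4 ≤ 2 := by
      have h6 : Real.log 4 = 2 * Real.log 2 := by
        rw [show (4 : ℝ) = 2 ^ 2 by norm_num, Real.log_pow]
        norm_num
      have := Real.log_two_lt_d9
      linarith
    have h7 : ∑ d ∈ Icc 1 N, vonMangoldt d ≤ ∑ d ∈ Icc 0 N, vonMangoldt d :=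
      sum_le_sum_of_subset_of_nonneg (Icc_subset_Icc_left (by omega)) fun _ _ _ => vonMangoldt_nonneg
    have h8 : (Real.log 4 + 4) * (N : ℝ) ≤ 6 * N := mul_le_mul_of_nonneg_right (by linarith) hN0.le
    linarith
  have h4 : N * ∑ d ∈ Icc 1 N, vonMangoldt d / (d : ℝ) ≤ N * (Real.log N + 6) := by
    calc N * ∑ d ∈ Icc 1 N, vonMangoldt d / (d : ℝ) = ∑ d ∈ Icc 1 N, vonMangoldt d * ((N : ℝ) / d) := by
          rw [mul_sum]
          refine sum_congr rfl fun d _ => ?_
          ring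
      _ ≤ ∑ d ∈ Icc 1 N, vonMangoldt d * (((N / d : ℕ) : ℝ) + 1) := by
          refine sum_le_sum fun d hd => ?_
          rw [mem_Icc] at hd
          refine mul_le_mul_of_nonneg_left ?_ vonMangoldt_nonneg
          have hd0 : (0 : ℝ) < d := by exact_mod_cast hd.1
          rw [div_le_iff₀ hd0]
          have h5 := Nat.lt_mul_div_succ N (show 0 < d by omega)
          have h6 : (N : ℝ) < (d : ℝ) * (((N / d : ℕ) : ℝ) + 1) := by exact_mod_cast h5
          linarith
      _ = (∑ n ∈ Icc 1 N, Real.log n) + ∑ d ∈ Icc 1 N, vonMangoldt d := by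
          rw [h1, ← sum_add_distrib]
          refine sum_congr rfl fun d _ => ?_
          ring
      _ ≤ N * (Real.log N + 6) := by linarith
  exact le_of_mul_le_mul_left h4 hN0

/-- the logarithm of an integer without large prime factor is carried by the small prime powers -/
lemma log_le_of {n b j : ℕ} {D : ℝ} (hb : 2 ≤ b)
    (h1 : ∀ p : ℕ, p.Prime → p ∣ n → (p : ℝ) ≤ D)
    (h2 : ∀ p ∈ (2 * b).primeFactors, ¬ p ^ j ∣ n)
    (h3 : ∀ r : ℕ, r.Coprime (2 * b) → D < (r : ℝ) ^ 3 → (r : ℝ) ≤ D → ¬ r ^ 2 ∣ n) :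
    Real.log n ≤ ∑ d ∈ (Icc 1 ⌊D⌋₊).filter (fun d => d.Coprime (2 * b)), (if d ∣ n then vonMangoldt d else 0) +
      ∑ d ∈ Icc 1 ((2 * b) ^ j), vonMangoldt d := by
  classical
  rw [← vonMangoldt_sum, ← sum_filter]
  set T1 := ((Icc 1 ⌊D⌋₊).filter (fun d => d.Coprime (2 * b))).filter (fun d => d ∣ n) with hT1
  set T2 := Icc 1 ((2 * b) ^ j) with hT2
  have hsub : n.divisors.filter (fun d => vonMangoldt d ≠ 0) ⊆ T1 ∪ T2 := by
    intro d hd
    rw [mem_filter, Nat.mem_divisors] at hd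
    obtain ⟨⟨hdn, _⟩, hΛ⟩ := hd
    have hpp : IsPrimePow d := vonMangoldt_ne_zero_iff.1 hΛ
    rw [isPrimePow_nat_iff] at hpp
    obtain ⟨p, k, hp, hk, rfl⟩ := hpp
    have hpn : p ∣ n := (dvd_pow_self p hk.ne').trans hdn
    rw [mem_union]
    by_cases hpb : p ∣ 2 * b
    · right
      have hmem : p ∈ (2 * b).primeFactors := Nat.mem_primeFactors.2 ⟨hp, hpb, by omega⟩
      have hkj : k < j := by
        by_contra hcon
        push Not at hcon
        exact h2 p hmem ((pow_dvd_pow p hcon).trans hdn)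
      rw [hT2, mem_Icc]
      refine ⟨Nat.one_le_pow _ _ hp.pos, ?_⟩
      calc p ^ k ≤ (2 * b) ^ k := Nat.pow_le_pow_left (Nat.le_of_dvd (by omega) hpb) k
        _ ≤ (2 * b) ^ j := Nat.pow_le_pow_right (by omega) hkj.le
    · left
      have hcop : p.Coprime (2 * b) := (Nat.Prime.coprime_iff_not_dvd hp).2 hpb
      have hle : ((p ^ k : ℕ) : ℝ) ≤ D := by
        by_contra hcon
        push Not at hcon
        have hex : ∃ k, D < ((p ^ k : ℕ) : ℝ) := ⟨k, hcon⟩
        obtain ⟨i, hi1, hi2, hi3⟩ : ∃ i, D < ((p ^ i : ℕ) : ℝ) ∧ i ≤ k ∧ ∀ l < i, ¬ D < ((p ^ l : ℕ) : ℝ) :=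
          ⟨Nat.find hex, Nat.find_spec hex, Nat.find_min' hex hcon, fun l hl => Nat.find_min hex hl⟩
        have hp1 := h1 p hp hpn
        have hp2 : (2 : ℝ) ≤ p := by exact_mod_cast hp.two_le
        have hi0 : i ≠ 0 := by
          rintro rfl
          simp at hi1
          linarith
        have hi1' : i ≠ 1 := by
          rintro rfl
          simp at hi1
          linarith
        have hi4 := hi3 (i - 1) (by omega)
        push Not at hi4
        apply h3 (p ^ (i / 2)) (hcop.pow_left _)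
        · calc D < ((p ^ i : ℕ) : ℝ) := hi1
            _ ≤ ((p ^ (i / 2 * 3) : ℕ) : ℝ) := by
                exact_mod_cast Nat.pow_le_pow_right hp.pos (by omega)
            _ = (((p ^ (i / 2) : ℕ)) : ℝ) ^ 3 := by
                rw [pow_mul]
                push_cast
                ring
        · refine le_trans ?_ hi4
          exact_mod_cast Nat.pow_le_pow_right hp.pos (by omega)
        · rw [← pow_mul]
          exact (pow_dvd_pow p (by omega)).trans ((pow_dvd_pow p hi2).trans hdn)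
      rw [hT1, mem_filter, mem_filter, mem_Icc]
      exact ⟨⟨⟨Nat.one_le_pow _ _ hp.pos, Nat.le_floor hle⟩, hcop.pow_left _⟩, hdn⟩
  calc ∑ d ∈ n.divisors, vonMangoldt d = ∑ d ∈ n.divisors.filter (fun d => vonMangoldt d ≠ 0), vonMangoldt d := by
        rw [sum_filter_ne_zero]
    _ ≤ ∑ d ∈ T1 ∪ T2, vonMangoldt d :=
        sum_le_sum_of_subset_of_nonneg hsub fun _ _ _ => vonMangoldt_nonneg
    _ ≤ ∑ d ∈ T1 ∪ T2, vonMangoldt d + ∑ d ∈ T1 ∩ T2, vonMangoldt d :=
        le_add_of_nonneg_right (sum_nonneg fun _ _ => vonMangoldt_nonneg)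
    _ = ∑ d ∈ T1, vonMangoldt d + ∑ d ∈ T2, vonMangoldt d := sum_union_inter

open Classical in
/-- the number of digit vectors whose palindrome has no prime factor above `b ^ (τ L)` -/
theorem main_gen {b s t : ℕ} (hb : 2 ≤ b) (hs : 1 ≤ s) (ht : 1 ≤ t) {τ : ℝ} (hτ0 : 0 < τ) (k : ℕ)
    (hkτ : k * τ ≤ 1) {ε : ℝ} (hε : 0 < ε) (R : ℕ → ℕ → Prop) (hR : ∀ L S, R L S → b ^ (2 * L + 2) ≤ S)
    (hlev : ∀ᶠ L : ℕ in atTop, ∀ S : ℕ, R L S →
      ∑ q ∈ (Icc 1 ⌊(b : ℝ) ^ (k * τ * L)⌋₊).filter (fun q => q.Coprime (2 * b)),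
      |cS b s t L S q - ((s : ℝ) * t) ^ L / q| ≤ ((s : ℝ) * t) ^ L / (L : ℝ) ^ (k + 1))
    (hsq : ∀ᶠ L : ℕ in atTop, ∀ S : ℕ, R L S →
      (((univ : Finset (Fin L → Fin s × Fin t)).filter (fun m => ∃ p : ℕ, p.Coprime (2 * b) ∧
      (b : ℝ) ^ (τ / 3 * L) ≤ p ∧ (p : ℝ) ≤ (b : ℝ) ^ (τ * L) ∧ p ^ 2 ∣ pS b s t L S m)).card : ℝ)
      ≤ ((s : ℝ) * t) ^ L / L)
    (j : ℕ) (hj : ∀ᶠ L : ℕ in atTop, ∀ S : ℕ, R L S →
      (((univ : Finset (Fin L → Fin s × Fin t)).filter
        (fun m => ∃ p ∈ (2 * b).primeFactors, p ^ j ∣ pS b s t L S m)).card : ℝ) ≤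
        ε / 4 * ((s : ℝ) * t) ^ L) : ∀ᶠ L : ℕ in atTop, ∀ S : ℕ, R L S →
    (((univ : Finset (Fin L → Fin s × Fin t)).filter (fun m => ∀ p : ℕ, p.Prime →
      p ∣ pS b s t L S m → (p : ℝ) ≤ (b : ℝ) ^ (τ * L))).card : ℝ) ≤
      (∏ i ∈ range k, τ / 2 / (1 - i * (τ / 2)) + ε) * ((s : ℝ) * t) ^ L := by
  classical
  have hbR : (2 : ℝ) ≤ b := by exact_mod_cast hb
  have hb0 : (0 : ℝ) < b := by linarith
  have hlb : 0 < Real.log b := Real.log_pos (by linarith)
  set K : ℝ := ∑ d ∈ Icc 1 ((2 * b) ^ j), vonMangoldt d with hK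
  have hK0 : 0 ≤ K := sum_nonneg fun _ _ => vonMangoldt_nonneg
  have hev1 : ∀ᶠ L : ℕ in atTop, (4 / ε : ℝ) ≤ L := (tendsto_natCast_atTop_atTop (R := ℝ)).eventually_ge_atTop _
  have hev2 : ∀ᶠ L : ℕ in atTop, (K / Real.log b : ℝ) ≤ L :=
    (tendsto_natCast_atTop_atTop (R := ℝ)).eventually_ge_atTop _
  have hs0 : (0 : ℝ) < s := by exact_mod_cast hs
  have ht0 : (0 : ℝ) < t := by exact_mod_cast ht
  have hi : ∀ i ∈ range k, (i : ℝ) * (τ / 2) ≤ 1 / 2 := by
    intro i hi
    rw [mem_range] at hi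
    have h1 : (i : ℝ) ≤ k := by exact_mod_cast hi.le
    have h2 := mul_le_mul_of_nonneg_right h1 hτ0.le
    linarith
  -- the limit of the quotient
  set a : ℕ → ℝ := fun L => ∏ i ∈ range k, (1 - K / (2 * L * Real.log b) - i * (τ / 2)) with ha
  set c : ℕ → ℝ := fun L => (τ / 2 + 6 / (2 * L * Real.log b)) ^ k + (k * τ / 2) ^ k / (L : ℝ) ^ (k + 1) with hc
  have hu : Tendsto (fun L : ℕ => 2 * (L : ℝ) * Real.log b) atTop atTop :=
    ((tendsto_natCast_atTop_atTop (R := ℝ)).const_mul_atTop (by norm_num : (0 : ℝ) < 2)).atTop_mul_const hlb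
  have ha_lim : Tendsto a atTop (𝓝 (∏ i ∈ range k, (1 - (i : ℝ) * (τ / 2)))) := by
    apply tendsto_finsetProd
    intro i _
    have h1 := (hu.const_div_atTop K)
    have h2 := ((tendsto_const_nhds (x := (1 : ℝ))).sub h1).sub (tendsto_const_nhds (x := (i : ℝ) * (τ / 2)))
    rw [sub_zero] at h2
    exact h2
  have hc_lim : Tendsto c atTop (𝓝 ((τ / 2) ^ k)) := by
    have h1 := (hu.const_div_atTop (6 : ℝ))
    have h2 := ((tendsto_const_nhds (x := τ / 2)).add h1).pow k
    have h3 : Tendsto (fun L : ℕ => (k * τ / 2) ^ k / (L : ℝ) ^ (k + 1)) atTop (𝓝 0) :=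
      ((tendsto_pow_atTop (Nat.succ_ne_zero k)).comp (tendsto_natCast_atTop_atTop (R := ℝ))).const_div_atTop _
    have h4 := h2.add h3
    rw [add_zero, add_zero] at h4
    exact h4
  have ha_pos : 0 < ∏ i ∈ range k, (1 - (i : ℝ) * (τ / 2)) := by
    apply prod_pos
    intro i hi'
    have := hi i hi'
    linarith
  have hq_lim := hc_lim.div ha_lim ha_pos.ne'
  have hPr : (τ / 2) ^ k / ∏ i ∈ range k, (1 - (i : ℝ) * (τ / 2)) = ∏ i ∈ range k, τ / 2 / (1 - i * (τ / 2)) := by
    rw [prod_div_distrib, prod_const, card_range]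
  rw [hPr] at hq_lim
  set Pr := ∏ i ∈ range k, τ / 2 / (1 - i * (τ / 2)) with hPrd
  have hev3 : ∀ᶠ L : ℕ in atTop, c L / a L < Pr + ε / 4 :=
    hq_lim.eventually (gt_mem_nhds (by linarith))
  have hev4 : ∀ᶠ L : ℕ in atTop, 0 < a L := ha_lim.eventually (lt_mem_nhds ha_pos)
  filter_upwards [hlev, hsq, hj, hev1, hev2, hev3, hev4, eventually_ge_atTop 1]
    with L hlev hsq hsm hL1 hL2 hL4 hL5 hL3 S hRS
  have hS := hR L S hRS
  have hL0 : (0 : ℝ) < L := by exact_mod_cast hL3
  set X : ℝ := ((s : ℝ) * t) ^ L with hX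
  have hX0 : 0 < X := by positivity
  set D : ℝ := (b : ℝ) ^ (τ * L) with hD
  have hD1 : 1 ≤ D := Real.one_le_rpow (by linarith) (by positivity)
  have hlogD : Real.log D = τ * L * Real.log b := by rw [hD, Real.log_rpow hb0]
  set N := ⌊D⌋₊ with hN
  have hN1 : 1 ≤ N := Nat.le_floor (by simpa using hD1)
  have hNr : (1 : ℝ) ≤ N := by exact_mod_cast hN1
  have hND : (N : ℝ) ≤ D := Nat.floor_le (by linarith)
  have hlogN : Real.log N ≤ τ * L * Real.log b := by
    rw [← hlogD]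
    exact Real.log_le_log (by linarith) hND
  have hlogN0 : 0 ≤ Real.log N := Real.log_nonneg hNr
  set Q := (Icc 1 N).filter (fun d => d.Coprime (2 * b)) with hQ
  have hQ1 : ∀ q ∈ Q, 1 ≤ q ∧ q ≤ N ∧ q.Coprime (2 * b) := by
    intro q hq
    rw [hQ, mem_filter, mem_Icc] at hq
    exact ⟨hq.1.1, hq.1.2, hq.2⟩
  set W := (univ : Finset (Fin L → Fin s × Fin t)).filter (fun m => ∀ p : ℕ, p.Prime →
      p ∣ pS b s t L S m → (p : ℝ) ≤ D) with hW
  set E := (univ : Finset (Fin L → Fin s × Fin t)).filter (fun m => ∃ p : ℕ, p.Coprime (2 * b) ∧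
      (b : ℝ) ^ (τ / 3 * L) ≤ p ∧ (p : ℝ) ≤ D ∧ p ^ 2 ∣ pS b s t L S m) with hE
  set E2 := (univ : Finset (Fin L → Fin s × Fin t)).filter
        (fun m => ∃ p ∈ (2 * b).primeFactors, p ^ j ∣ pS b s t L S m) with hE2
  set G := W.filter (fun m => m ∉ E ∧ m ∉ E2) with hG
  have hcard : W.card ≤ G.card + (E.card + E2.card) := by
    have h1 : W ⊆ G ∪ (E ∪ E2) := by
      intro m hm
      rw [mem_union, mem_union]
      by_cases h2 : m ∈ E
      · exact Or.inr (Or.inl h2)
      · by_cases h3 : m ∈ E2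
        · exact Or.inr (Or.inr h3)
        · left
          rw [hG, mem_filter]
          exact ⟨hm, h2, h3⟩
    exact (card_le_card h1).trans ((card_union_le _ _).trans (Nat.add_le_add_left (card_union_le _ _) _))
  -- the lower bound for the logarithm
  have hlow : ∀ m : Fin L → Fin s × Fin t, 2 * L * Real.log b ≤ Real.log (pS b s t L S m : ℕ) := by
    intro m
    have h1 : b ^ (2 * L) ≤ pS b s t L S m := by
      calc b ^ (2 * L) ≤ b ^ (2 * L + 2) := Nat.pow_le_pow_right (by omega) (by omega)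
        _ ≤ S := hS
        _ ≤ pS b s t L S m := Nat.le_add_right _ _
    have h2 : Real.log ((b : ℝ) ^ (2 * L)) ≤ Real.log (pS b s t L S m : ℕ) := by
      apply Real.log_le_log (by positivity)
      exact_mod_cast h1
    rw [Real.log_pow] at h2
    push_cast at h2
    exact h2
  -- the lower bound for the first moment on `G`
  have hup : ∀ m ∈ G, 2 * L * Real.log b - K ≤ ell Q (pS b s t L S m) := by
    intro m hm
    rw [hG, mem_filter] at hm
    obtain ⟨hmW, hmE, hmE2⟩ := hm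
    rw [hW, mem_filter] at hmW
    have h0 := (hlow m).trans (log_le_of (D := D) (j := j) hb hmW.2 (by
      intro p hp hd
      apply hmE2
      rw [hE2, mem_filter]
      exact ⟨mem_univ _, p, hp, hd⟩) (by
      intro r hr1 hr2 hr3 hr4
      apply hmE
      rw [hE, mem_filter]
      refine ⟨mem_univ _, r, hr1, ?_, hr3, hr4⟩
      have h1 : ((b : ℝ) ^ (τ / 3 * L)) ^ 3 ≤ (r : ℝ) ^ 3 := by
        rw [← Real.rpow_natCast, ← Real.rpow_mul hb0.le]
        refine le_trans (le_of_eq ?_) hr2.le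
        rw [hD]
        congr 1
        push_cast
        ring
      exact le_of_pow_le_pow_left₀ (by norm_num) (Nat.cast_nonneg _) h1))
    unfold ell
    linarith
  -- the lower bound for the `k`-th moment on `G`
  set u : ℝ := 2 * L * Real.log b with hud
  have hu0 : 0 < u := by positivity
  have hKL : K ≤ L * Real.log b := by
    rw [div_le_iff₀ hlb] at hL2
    exact hL2
  have hTk : ∀ m ∈ G, u ^ k * a L ≤ TT Q (pS b s t L S m) k 1 := by
    intro m hm
    have h1 := hup m hm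
    have h2 := TT_ge (Q := Q) (N := N) (n := pS b s t L S m) hN1 (fun q hq => (hQ1 q hq).2.1) k 1 one_ne_zero (by
      rw [Nat.primeFactors_one, card_empty, Nat.cast_zero, zero_add]
      have h3 : (k : ℝ) * Real.log N ≤ k * (τ * L * Real.log b) := mul_le_mul_of_nonneg_left hlogN (Nat.cast_nonneg _)
      have h4 : (k : ℝ) * (τ * L * Real.log b) = (k * τ) * (L * Real.log b) := by ring
      have h5 : (k * τ : ℝ) * (L * Real.log b) ≤ 1 * (L * Real.log b) :=
        mul_le_mul_of_nonneg_right hkτ (by positivity)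
      linarith)
    rw [Nat.primeFactors_one, card_empty, Nat.cast_zero] at h2
    refine le_trans ?_ h2
    have h3 : u ^ k * a L = ∏ i ∈ range k, (u - K - i * (τ / 2) * u) := by
      rw [ha]
      simp only
      rw [← hud]
      rw [show u ^ k = ∏ i ∈ range k, u by rw [prod_const, card_range], ← prod_mul_distrib]
      refine prod_congr rfl fun i _ => ?_
      field_simp
    rw [h3]
    apply Finset.prod_le_prod
    · intro i hi'
      have h4 := mul_le_mul_of_nonneg_right (hi i hi') hu0.le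
      have : 1 / 2 * u = L * Real.log b := by rw [hud]; ring
      linarith
    · intro i _
      have h4 : (i : ℝ) * Real.log N ≤ i * (τ * L * Real.log b) := mul_le_mul_of_nonneg_left hlogN (Nat.cast_nonneg _)
      have h5 : (i : ℝ) * (τ * L * Real.log b) = i * (τ / 2) * u := by rw [hud]; ring
      rw [zero_add]
      linarith
  -- the sum over all palindromes
  have hsum : ∑ m : Fin L → Fin s × Fin t, TT Q (pS b s t L S m) k 1 ≤
      X * (∑ q ∈ Q, vonMangoldt q / (q : ℝ)) ^ k + RR b s t L S Q k 1 := by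
    have h1 := VV_le (b := b) (s := s) (t := t) L S Q k 1
    simp only [one_dvd, if_true, Nat.cast_one, div_one] at h1
    exact h1
  have hNk : N ^ k ≤ ⌊(b : ℝ) ^ (k * τ * L)⌋₊ := by
    apply Nat.le_floor
    push_cast
    calc (N : ℝ) ^ k ≤ D ^ k := pow_le_pow_left₀ (Nat.cast_nonneg _) hND k
      _ = (b : ℝ) ^ (k * τ * L) := by
          rw [hD, ← Real.rpow_natCast, ← Real.rpow_mul hb0.le]
          congr 1
          ring
  have hRR : RR b s t L S Q k 1 ≤ (k * τ * L * Real.log b) ^ k * (X / (L : ℝ) ^ (k + 1)) := by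
    have h1 := RR_sum (b := b) (s := s) (t := t) (Q := Q) (N := N) hN1 hQ1 L S k 1 le_rfl
    rw [one_mul] at h1
    have h2 : RR b s t L S Q k 1 ≤
        ∑ e ∈ (Icc 1 1).filter (fun e => e.Coprime (2 * b)), RR b s t L S Q k e := by
      refine single_le_sum (f := fun e => RR b s t L S Q k e) (fun e _ => RR_nonneg _ _ _ _ _) ?_
      rw [mem_filter, mem_Icc]
      exact ⟨⟨le_rfl, le_rfl⟩, Nat.coprime_one_left _⟩
    refine h2.trans (h1.trans ?_)
    have h3 : Real.log ((N ^ k : ℕ) : ℝ) ≤ k * τ * L * Real.log b := by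
      push_cast
      rw [Real.log_pow]
      have := mul_le_mul_of_nonneg_left hlogN (Nat.cast_nonneg (α := ℝ) k)
      linarith
    have h4 : ∑ d ∈ (Icc 1 (N ^ k)).filter (fun d => d.Coprime (2 * b)),
        |cS b s t L S d - ((s : ℝ) * t) ^ L / d| ≤ X / (L : ℝ) ^ (k + 1) := by
      refine le_trans (sum_le_sum_of_subset_of_nonneg ?_ fun _ _ _ => abs_nonneg _) (hlev S hRS)
      exact filter_subset_filter _ (Icc_subset_Icc_right hNk)
    exact mul_le_mul (pow_le_pow_left₀ (Real.log_natCast_nonneg _) h3 k) h4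
      (sum_nonneg fun _ _ => abs_nonneg _) (by positivity)
  have hSg : ∑ q ∈ Q, vonMangoldt q / (q : ℝ) ≤ τ * L * Real.log b + 6 := by
    refine ((sum_le_sum_of_subset_of_nonneg (filter_subset _ _) fun _ _ _ =>
        div_nonneg vonMangoldt_nonneg (Nat.cast_nonneg _)).trans (mert N hN1)).trans ?_
    linarith
  have hSg0 : 0 ≤ ∑ q ∈ Q, vonMangoldt q / (q : ℝ) :=
    sum_nonneg fun q _ => div_nonneg vonMangoldt_nonneg (Nat.cast_nonneg _)
  have hGb : (G.card : ℝ) ≤ (Pr + ε / 4) * X := by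
    have h1 : (G.card : ℝ) * (u ^ k * a L) ≤ u ^ k * (c L * X) := by
      calc (G.card : ℝ) * (u ^ k * a L) = ∑ m ∈ G, u ^ k * a L := by rw [sum_const, nsmul_eq_mul]
        _ ≤ ∑ m ∈ G, TT Q (pS b s t L S m) k 1 := sum_le_sum hTk
        _ ≤ ∑ m : Fin L → Fin s × Fin t, TT Q (pS b s t L S m) k 1 :=
            sum_le_sum_of_subset_of_nonneg (subset_univ _) fun m _ _ => TT_nonneg _ _ _ _
        _ ≤ X * (∑ q ∈ Q, vonMangoldt q / (q : ℝ)) ^ k + RR b s t L S Q k 1 := hsum
        _ ≤ X * (τ * L * Real.log b + 6) ^ k + (k * τ * L * Real.log b) ^ k * (X / (L : ℝ) ^ (k + 1)) :=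
            add_le_add (mul_le_mul_of_nonneg_left (pow_le_pow_left₀ hSg0 hSg k) hX0.le) hRR
        _ = u ^ k * (c L * X) := by
            rw [hc]
            simp only
            rw [← hud]
            have e1 : (τ * L * Real.log b + 6) ^ k = u ^ k * (τ / 2 + 6 / u) ^ k := by
              rw [← mul_pow]
              congr 1
              rw [mul_add, mul_div_cancel₀ _ hu0.ne', hud]
              ring
            have e2 : (k * τ * L * Real.log b) ^ k = u ^ k * (k * τ / 2) ^ k := by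
              rw [← mul_pow]
              congr 1
              rw [hud]
              ring
            rw [e1, e2]
            ring
    have h2 : (G.card : ℝ) * a L ≤ c L * X := by
      have h3 : u ^ k * ((G.card : ℝ) * a L) ≤ u ^ k * (c L * X) := by
        calc u ^ k * ((G.card : ℝ) * a L) = (G.card : ℝ) * (u ^ k * a L) := by ring
          _ ≤ _ := h1
      exact le_of_mul_le_mul_left h3 (by positivity)
    calc (G.card : ℝ) ≤ c L * X / a L := by rwa [le_div_iff₀ hL5]
      _ = c L / a L * X := by ring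
      _ ≤ (Pr + ε / 4) * X := mul_le_mul_of_nonneg_right hL4.le hX0.le
  have hEb : (E.card : ℝ) ≤ ε / 4 * X := by
    refine (hsq S hRS).trans ?_
    have h1 : 4 / ε * (ε / 4) ≤ L * (ε / 4) := mul_le_mul_of_nonneg_right hL1 (by positivity)
    have h2 : 4 / ε * (ε / 4) = 1 := by field_simp
    rw [h2] at h1
    rw [div_le_iff₀ hL0]
    nlinarith
  have hE2b : (E2.card : ℝ) ≤ ε / 4 * X := hsm S hRS
  have hcard' : (W.card : ℝ) ≤ G.card + (E.card + E2.card) := by exact_mod_cast hcard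
  have : 0 ≤ ε / 4 * X := by positivity
  calc (W.card : ℝ) ≤ G.card + (E.card + E2.card) := hcard'
    _ ≤ (Pr + ε / 4) * X + (ε / 4 * X + ε / 4 * X) := by linarith
    _ ≤ (Pr + ε) * X := by linarith

open Classical in
/-- the number of palindromes (with given outer digits and given middle digit) without prime factor above
`b ^ (τ L)` -/
theorem main {b : ℕ} (hb : 2 ≤ b) {H CM : ℝ} (hMaj : MajP b b 1 H CM) (hH0 : 0 < H)
    (hHb : 1 ≤ b * H) (hCM : 0 < CM) {τ : ℝ} (hτ0 : 0 < τ) (k : ℕ) (hk : 1 ≤ k)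
    (hτH : (b : ℝ) ^ (k * τ) * H < 1)
    {ε : ℝ} (hε : 0 < ε) : ∀ᶠ L : ℕ in atTop, ∀ S : ℕ, b ^ (2 * L + 2) ≤ S →
    (((univ : Finset (Fin L → Fin b × Fin 1)).filter (fun m => ∀ p : ℕ, p.Prime →
      p ∣ pS b b 1 L S m → (p : ℝ) ≤ (b : ℝ) ^ (τ * L))).card : ℝ) ≤
      (∏ i ∈ range k, τ / 2 / (1 - i * (τ / 2)) + ε) * (b : ℝ) ^ L := by
  have hb1 : (1 : ℝ) < b := by exact_mod_cast (by omega : 1 < b)
  have hkr : (1 : ℝ) ≤ k := by exact_mod_cast hk
  have hkτ1 : (k : ℝ) * τ < 1 := by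
    by_contra hcon
    push Not at hcon
    have h3 : (b : ℝ) ≤ (b : ℝ) ^ (k * τ) := by
      calc (b : ℝ) = (b : ℝ) ^ (1 : ℝ) := (Real.rpow_one _).symm
        _ ≤ _ := Real.rpow_le_rpow_of_exponent_le hb1.le hcon
    have h4 : (b : ℝ) * H ≤ (b : ℝ) ^ (k * τ) * H := mul_le_mul_of_nonneg_right h3 hH0.le
    linarith
  have hτH' : (b : ℝ) ^ τ * H < 1 := by
    refine lt_of_le_of_lt (mul_le_mul_of_nonneg_right ?_ hH0.le) hτH
    exact Real.rpow_le_rpow_of_exponent_le hb1.le (le_mul_of_one_le_left hτ0.le hkr)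
  obtain ⟨j, hj⟩ := small_all hb (ε / 4) (by positivity)
  have h := main_gen (b := b) (s := b) (t := 1) hb (by omega) le_rfl hτ0 k hkτ1.le hε
    (fun L S => b ^ (2 * L + 2) ≤ S)
    (fun _ _ h => h)
    (by
      filter_upwards [levS hb hMaj hH0 hHb hCM (κ := k * τ) (by positivity) hτH (k + 1)] with L hL S _
      simpa using hL S)
    (by
      filter_upwards [sqS hb hMaj hH0 hHb hCM hτ0 hτH' (η := τ / 3) (by positivity)] with L hL S _
      simpa using hL S) j
    (by
      filter_upwards [hj] with L hL S _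
      simpa using hL S)
  filter_upwards [h] with L hL S hS
  simpa using hL S hS

end Pool.Agent.V7H46.PLF
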